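import Pool.Agent.H835R3.Ring

/-!
The graded semigroup ring `S` of the Hirzebruch surface `F_p`: monomials `x^i y^j t^d` with
`j ≤ d` and `i ≤ d + p j`, graded by `d`; its homogeneous localizations inside `k[x^{±1}, y^{±1}]`.
-/

set_option autoImplicit false

namespace Pool.Agent.H835R3

open AddMonoidAlgebra AlgebraicGeometry HomogeneousLocalization

/-- the semigroup of exponents `(i, j, d)` -/
def Mon (p : ℕ) : AddSubmonoid (ℕ × ℕ × ℕ) where
  carrier := {u | u.2.1 ≤ u.2.2 ∧ u.1 ≤ u.2.2 + p * u.2.1}
  zero_mem' := by simp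
  add_mem' := by
    rintro ⟨i, j, d⟩ ⟨i', j', d'⟩ ⟨h1, h2⟩ ⟨h3, h4⟩
    simp only at h1 h2 h3 h4
    refine ⟨?_, ?_⟩
    · simp only [Prod.mk_add_mk]; omega
    · simp only [Prod.mk_add_mk, mul_add]; omega

/-- the semigroup ring -/
abbrev SS (k : Type) [Field k] (p : ℕ) : Type := AddMonoidAlgebra k (Mon p)

/-- the degree -/
def degM (p : ℕ) : Mon p →+ ℕ where
  toFun u := u.1.2.2
  map_zero' := rfl
  map_add' _ _ := rfl

/-- the grading -/
noncomputable abbrev AA (k : Type) [Field k] (p : ℕ) : ℕ → Submodule k (SS k p) :=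
  gradeBy k (degM p)

/-- the projection of exponents -/
def piM (p : ℕ) : Mon p →+ ℤ × ℤ where
  toFun u := ((u.1.1 : ℤ), (u.1.2.1 : ℤ))
  map_zero' := rfl
  map_add' u v := by
    ext <;> simp

instance instUniqueSumsMon (p : ℕ) : UniqueSums (Mon p) :=
  UniqueSums.of_injective_addHom ((Mon p).subtype : AddHom (Mon p) (ℕ × ℕ × ℕ))
    Subtype.val_injective inferInstance

variable {k : Type} [Field k] {p : ℕ}

instance : IsDomain (SS k p) := inferInstance
instance : IsDomain (Lau k) := inferInstance

/-- set `t = 1` -/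
noncomputable def PiS (k : Type) [Field k] (p : ℕ) : SS k p →ₐ[k] Lau k :=
  AddMonoidAlgebra.mapDomainAlgHom k k (piM p)

lemma PiS_single (u : Mon p) (a : k) : PiS k p (single u a) = single (piM p u) a :=
  AddMonoidAlgebra.mapDomain_single

lemma PiS_coeff (a : SS k p) : (PiS k p a).coeff = Finsupp.mapDomain (piM p) a.coeff := rfl

lemma PiS_injOn (d : ℕ) : Set.InjOn (PiS k p) (AA k p d : Set (SS k p)) := by
  intro a ha b hb hab
  have hS : Set.InjOn (piM p) {u | degM p u = d} := by
    intro u hu v hv huv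
    have h1 : (u.1.1 : ℤ) = v.1.1 := congrArg Prod.fst huv
    have h2 : (u.1.2.1 : ℤ) = v.1.2.1 := congrArg Prod.snd huv
    have h3 : u.1.2.2 = v.1.2.2 := (show u.1.2.2 = d from hu).trans (show v.1.2.2 = d from hv).symm
    apply Subtype.ext
    exact Prod.ext (by exact_mod_cast h1) (Prod.ext (by exact_mod_cast h2) h3)
  have h := Finsupp.mapDomain_injOn (M := k) {u | degM p u = d} hS
  apply AddMonoidAlgebra.ext
  refine h ?_ ?_ ?_
  · intro u hu; exact ha u hu
  · intro u hu; exact hb u hu
  · rw [← PiS_coeff, ← PiS_coeff, hab]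

lemma PiS_eq_zero (d : ℕ) (a : SS k p) (ha : a ∈ AA k p d) (h : PiS k p a = 0) : a = 0 :=
  PiS_injOn d ha (zero_mem _) (by rw [h, map_zero])

/-- the support of the image -/
lemma PiS_support (a : SS k p) (w : ℤ × ℤ) (h : (PiS k p a).coeff w ≠ 0) :
    ∃ u : Mon p, a.coeff u ≠ 0 ∧ piM p u = w := by
  rw [PiS_coeff] at h
  classical
  have h1 := Finsupp.mapDomain_support (f := piM p) (s := a.coeff) (Finsupp.mem_support_iff.2 h)
  rw [Finset.mem_image] at h1
  obtain ⟨u, hu, huw⟩ := h1
  exact ⟨u, Finsupp.mem_support_iff.1 hu, huw⟩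

/-- the monomial `x^u` of `S` -/
noncomputable abbrev mo (k : Type) [Field k] (p : ℕ) (v : Mon p) : SS k p := single v (1 : k)

lemma mo_mem (v : Mon p) : mo k p v ∈ AA k p (degM p v) := single_mem_gradeBy _ _ _

lemma isUnit_PiS_mo (v : Mon p) : IsUnit (PiS k p (mo k p v)) := by
  rw [PiS_single]
  refine IsUnit.of_mul_eq_one (single (-piM p v) 1) ?_
  rw [single_mul_single, add_neg_cancel, one_mul]
  rfl

/-- `PiS` as a ring homomorphism -/
noncomputable def PiR (k : Type) [Field k] (p : ℕ) : SS k p →+* Lau k := (PiS k p).toRingHom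

lemma PiR_apply (a : SS k p) : PiR k p a = PiS k p a := rfl

/-- the extension of `PiR` to the localization -/
noncomputable def liftR (k : Type) [Field k] (p : ℕ) (v : Mon p) :
    Localization.Away (mo k p v) →+* Lau k :=
  IsLocalization.Away.lift (S := Localization.Away (mo k p v)) (mo k p v)
    (g := PiR k p) (isUnit_PiS_mo v)

lemma liftR_algebraMap (v : Mon p) (a : SS k p) :
    liftR k p v (algebraMap (SS k p) (Localization.Away (mo k p v)) a) = PiS k p a :=
  IsLocalization.Away.lift_eq (S := Localization.Away (mo k p v)) (mo k p v)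
    (g := PiR k p) (isUnit_PiS_mo v) a

/-- the embedding of the homogeneous localization in the Laurent polynomials -/
noncomputable def alpha (k : Type) [Field k] (p : ℕ) (v : Mon p) :
    Away (AA k p) (mo k p v) →+* Lau k :=
  (liftR k p v).comp (algebraMap (Away (AA k p) (mo k p v)) (Localization.Away (mo k p v)))

lemma alpha_mul (v : Mon p) {d : ℕ} (hd : mo k p v ∈ AA k p d) (n : ℕ) (a : SS k p)
    (ha : a ∈ AA k p (n • d)) :
    alpha k p v (Away.mk (AA k p) hd n a ha) * single (n • piM p v) (1 : k) = PiS k p a := by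
  have h1 : (single (n • piM p v) (1 : k) : Lau k) = liftR k p v
        (algebraMap (SS k p) (Localization.Away (mo k p v)) (mo k p v ^ n)) := by
    rw [liftR_algebraMap, map_pow, PiS_single, single_pow, one_pow]
  rw [h1]
  unfold alpha
  rw [RingHom.comp_apply, HomogeneousLocalization.algebraMap_apply, Away.val_mk, ← map_mul]
  have h2 : Localization.mk a (⟨mo k p v ^ n, n, rfl⟩ : Submonoid.powers (mo k p v)) *
      algebraMap (SS k p) (Localization.Away (mo k p v)) (mo k p v ^ n) =
      algebraMap (SS k p) (Localization.Away (mo k p v)) a := by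
    rw [Localization.mk_eq_mk']
    exact IsLocalization.mk'_spec _ _ _
  rw [h2, liftR_algebraMap]

lemma single_one_mul_cancel (w : ℤ × ℤ) (l l' : Lau k)
    (h : l * single w (1 : k) = l' * single w (1 : k)) : l = l' := by
  have h1 := congrArg (· * (single (-w) (1 : k) : Lau k)) h
  simp only [mul_assoc, single_mul_single, add_neg_cancel, one_mul] at h1
  have h2 : (single (0 : ℤ × ℤ) (1 : k) : Lau k) = 1 := rfl
  rw [h2, mul_one, mul_one] at h1
  exact h1

lemma alpha_injective (v : Mon p) : Function.Injective (alpha k p v) := by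
  rw [injective_iff_map_eq_zero]
  intro z hz
  obtain ⟨n, a, ha, rfl⟩ := Away.mk_surjective (AA k p) (mo_mem v) z
  have h1 := alpha_mul v (mo_mem v) n a ha
  rw [hz, zero_mul] at h1
  have h2 : a = 0 := PiS_eq_zero _ a ha h1.symm
  subst h2
  apply HomogeneousLocalization.mk_eq_zero_of_num
  rfl

lemma coeff_mul_single (l : Lau k) (w u : ℤ × ℤ) :
    (l * single w (1 : k)).coeff u = l.coeff (u - w) := by
  have h := AddMonoidAlgebra.induction_linear
    (motive := fun l : Lau k => (l * single w (1 : k)).coeff u = l.coeff (u - w)) l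
  apply h
  · simp
  · intro a b ha hb
    rw [add_mul, coeff_add, coeff_add, Finsupp.add_apply, Finsupp.add_apply, ha, hb]
  · intro v a
    rw [single_mul_single, coeff_single, coeff_single, mul_one, Finsupp.single_apply,
      Finsupp.single_apply]
    congr 1
    rw [eq_sub_iff_add_eq]

/-- the range of `alpha` -/
lemma alpha_range (v : Mon p) {d : ℕ} (hd : degM p v = d) (C : Set (ℤ × ℤ))
    (H1 : ∀ (u : Mon p) (n : ℕ), degM p u = n * d → piM p u - n • piM p v ∈ C)
    (H2 : ∀ w ∈ C, ∃ (n : ℕ) (u : Mon p), degM p u = n * d ∧ piM p u = w + n • piM p v)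
    (l : Lau k) : l ∈ coneSub k C ↔ ∃ z, alpha k p v z = l := by
  constructor
  · intro hl
    have h1 : ∀ u : ℤ × ℤ, u ∈ C → ∀ c : k, ∃ z, alpha k p v z = single u c := by
      intro w hw c
      obtain ⟨n, u, hu1, hu2⟩ := H2 w hw
      have hmem : (single u c : SS k p) ∈ AA k p (n • degM p v) := by
        have := single_mem_gradeBy (R := k) (degM p) u c
        rw [hu1, ← hd] at this
        exact this
      refine ⟨Away.mk (AA k p) (mo_mem v) n (single u c) hmem, ?_⟩
      apply single_one_mul_cancel (n • piM p v)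
      rw [alpha_mul, PiS_single, single_mul_single, mul_one, hu2]
    have h2 : l = l.coeff.sum (fun u a => (single u a : Lau k)) := (sum_coeff_single l).symm
    rw [h2]
    have h3 : l.coeff.sum (fun u a => (single u a : Lau k)) ∈ (alpha k p v).range.toAddSubgroup := by
      refine AddSubgroup.sum_mem _ ?_
      intro u hu
      exact h1 u (hl u (Finsupp.mem_support_iff.1 hu)) _
    exact h3
  · rintro ⟨z, rfl⟩ w hw
    obtain ⟨n, a, ha, rfl⟩ := Away.mk_surjective (AA k p) (mo_mem v) z
    have h1 := alpha_mul v (mo_mem v) n a ha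
    have h2 : (PiS k p a).coeff (w + n • piM p v) ≠ 0 := by
      rw [← h1, coeff_mul_single, add_sub_cancel_right]
      exact hw
    obtain ⟨u, hu1, hu2⟩ := PiS_support a _ h2
    have h3 : degM p u = n * d := by
      have := ha u (Finsupp.mem_support_iff.2 hu1)
      rw [← hd]
      exact this
    have h4 := H1 u n h3
    rw [hu2, add_sub_cancel_right] at h4
    exact h4

/-- compatibility of the embeddings -/
lemma alpha_awayMap (v v' : Mon p) {d' : ℕ} (hd' : mo k p v' ∈ AA k p d')
    (hx : mo k p (v + v') = mo k p v * mo k p v') (z : Away (AA k p) (mo k p v)) :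
    alpha k p (v + v') (awayMap (AA k p) hd' hx z) = alpha k p v z := by
  obtain ⟨n, a, ha, rfl⟩ := Away.mk_surjective (AA k p) (mo_mem v) z
  rw [awayMap_mk]
  apply single_one_mul_cancel (n • piM p (v + v'))
  have h1 := alpha_mul v (mo_mem v) n a ha
  rw [alpha_mul, map_mul, ← h1, map_pow, PiS_single, single_pow, one_pow, mul_assoc,
    single_mul_single, one_mul, map_add, smul_add]

end Pool.Agent.H835R3
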