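import Mathlib

/-!
A criterion for non-injectivity of `H¹(X, A) → H¹(X, B)` for a monomorphism of abelian sheaves.
-/

set_option autoImplicit false

open CategoryTheory TopologicalSpace Opposite Limits Abelian

namespace Pool.Agent.H835R3

universe u

variable {X : TopCat.{u}} {A B : Sheaf (Opens.grothendieckTopology X) AddCommGrpCat.{u}}

/-- sections form a left exact functor -/
lemma exists_of_cokernel_zero (f : A ⟶ B) [Mono f] (V : Opens X)
    (s : B.obj.obj (op V)) (hs : (cokernel.π f).hom.app (op V) s = 0) :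
    ∃ a : A.obj.obj (op V), f.hom.app (op V) a = s := by
  let S : ShortComplex (Sheaf (Opens.grothendieckTopology X) AddCommGrpCat.{u}) :=
    ShortComplex.mk f (cokernel.π f) (cokernel.condition f)
  have hS : S.Exact := ShortComplex.exact_cokernel f
  let F : Sheaf (Opens.grothendieckTopology X) AddCommGrpCat.{u} ⥤ AddCommGrpCat.{u} :=
    sheafToPresheaf _ _ ⋙ (evaluation _ _).obj (op V)
  have hmono : Mono S.f := ‹Mono f›
  have h2 : (S.map F).Exact := hS.map_of_mono_of_preservesKernel F hmono inferInstance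
  rw [ShortComplex.ab_exact_iff] at h2
  exact h2 s hs

/-- gluing two sections -/
lemma glue_two (C : Sheaf (Opens.grothendieckTopology X) AddCommGrpCat.{u}) (V₁ V₂ : Opens X)
    (hV : V₁ ⊔ V₂ = ⊤) (c₁ : C.obj.obj (op V₁)) (c₂ : C.obj.obj (op V₂))
    (h : C.obj.map (homOfLE (inf_le_left : V₁ ⊓ V₂ ≤ V₁)).op c₁ =
      C.obj.map (homOfLE (inf_le_right : V₁ ⊓ V₂ ≤ V₂)).op c₂) :
    ∃ c : C.obj.obj (op ⊤),
      C.obj.map (homOfLE (le_top : V₁ ≤ ⊤)).op c = c₁ ∧
      C.obj.map (homOfLE (le_top : V₂ ≤ ⊤)).op c = c₂ := by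
  let U : Bool → Opens X := fun b => cond b V₁ V₂
  let sf : ∀ b : Bool, C.obj.obj (op (U b)) := fun b =>
    match b with
    | true => c₁
    | false => c₂
  have hself : ∀ (V : Opens X) (c : C.obj.obj (op V)),
    C.obj.map (Opens.infLELeft V V).op c = C.obj.map (Opens.infLERight V V).op c :=
    fun V c => rfl
  have hcomp : TopCat.Presheaf.IsCompatible C.obj U sf := by
    intro i j
    match i, j with
    | true, true => exact hself V₁ c₁
    | true, false => exact h
    | false, true =>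
      have h1 := congrArg (C.obj.map (homOfLE (le_inf inf_le_right inf_le_left :
        V₂ ⊓ V₁ ≤ V₁ ⊓ V₂)).op) h
      simp only [← ConcreteCategory.comp_apply, ← Functor.map_comp] at h1
      exact h1.symm
    | false, false => exact hself V₂ c₂
  obtain ⟨c, hc, -⟩ := TopCat.Sheaf.existsUnique_gluing' (C := AddCommGrpCat.{u}) (X := X) C U ⊤
    (fun i => homOfLE le_top) (by
      rw [← hV]
      exact sup_le (le_iSup U true) (le_iSup U false)) sf hcomp
  exact ⟨c, hc true, hc false⟩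

lemma not_injective_H1 (f : A ⟶ B) [Mono f] (V₁ V₂ : Opens X) (hV : V₁ ⊔ V₂ = ⊤)
    (P₁ : B.obj.obj (op V₁)) (P₂ : B.obj.obj (op V₂)) (P : A.obj.obj (op (V₁ ⊓ V₂)))
    (hP : f.hom.app (op (V₁ ⊓ V₂)) P =
      B.obj.map (homOfLE (inf_le_left : V₁ ⊓ V₂ ≤ V₁)).op P₁ +
      B.obj.map (homOfLE (inf_le_right : V₁ ⊓ V₂ ≤ V₂)).op P₂)
    (hne : ∀ (a₁ : A.obj.obj (op V₁)) (a₂ : A.obj.obj (op V₂)),
      P ≠ A.obj.map (homOfLE (inf_le_left : V₁ ⊓ V₂ ≤ V₁)).op a₁ +
        A.obj.map (homOfLE (inf_le_right : V₁ ⊓ V₂ ≤ V₂)).op a₂) :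
    ¬ Function.Injective (Sheaf.H.map f 1) := by
  intro hinj
  let S : ShortComplex (Sheaf (Opens.grothendieckTopology X) AddCommGrpCat.{u}) :=
    ShortComplex.mk f (cokernel.π f) (cokernel.condition f)
  have hS : S.ShortExact :=
    { exact := ShortComplex.exact_cokernel f
      mono_f := ‹Mono f›
      epi_g := by dsimp [S]; infer_instance }
  let C := cokernel f
  let π : B ⟶ C := cokernel.π f
  have hπf : ∀ (V : Opens X) (a : A.obj.obj (op V)), π.hom.app (op V) (f.hom.app (op V) a) = 0 := by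
    intro V a
    have h1 : f ≫ π = 0 := cokernel.condition f
    have h2 : (f ≫ π).hom.app (op V) a = (0 : A ⟶ C).hom.app (op V) a := by rw [h1]
    exact h2
  have hnat : ∀ {D E : Sheaf (Opens.grothendieckTopology X) AddCommGrpCat.{u}} (g : D ⟶ E)
      (V W : Opens X) (h : W ≤ V) (s : D.obj.obj (op V)),
      E.obj.map (homOfLE h).op (g.hom.app (op V) s) = g.hom.app (op W) (D.obj.map (homOfLE h).op s) := by
    intro D E g V W h s
    exact (NatTrans.naturality_apply g.hom (homOfLE h).op s).symm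
  have finj : ∀ (V : Opens X) (a b : A.obj.obj (op V)),
      f.hom.app (op V) a = f.hom.app (op V) b → a = b := by
    intro V a b hab
    have hm : Mono ((sheafToPresheaf _ _ ⋙ (evaluation _ _).obj (op V)).map f) := inferInstance
    exact (AddCommGrpCat.mono_iff_injective _).1 hm hab
  -- the section of the quotient
  have hc : ∃ c : C.obj.obj (op ⊤),
      C.obj.map (homOfLE (le_top : V₁ ≤ ⊤)).op c = π.hom.app (op V₁) P₁ ∧
      C.obj.map (homOfLE (le_top : V₂ ≤ ⊤)).op c = π.hom.app (op V₂) (-P₂) := by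
    apply glue_two C V₁ V₂ hV
    rw [hnat, hnat, map_neg, map_neg, eq_neg_iff_add_eq_zero, ← map_add, ← hP]
    exact hπf _ _
  obtain ⟨c, hc1, hc2⟩ := hc
  have hT : IsTerminal (⊤ : Opens X) := isTerminalTop
  let x₃ : Sheaf.H C 0 := (Sheaf.H.equiv₀ C hT).symm c
  have h1 : Sheaf.H.map f 1 (Ext.comp x₃ hS.extClass (zero_add 1)) = 0 := by
    rw [Sheaf.H.map_apply]
    have h3 : hS.extClass.comp (Ext.mk₀ f) (add_zero 1) = 0 := hS.extClass_comp
    rw [Ext.comp_assoc_of_third_deg_zero, h3, Ext.comp_zero]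
  have h2 : Ext.comp x₃ hS.extClass (zero_add 1) = 0 := hinj (h1.trans (map_zero _).symm)
  obtain ⟨x₂, hx₂⟩ := Ext.covariant_sequence_exact₃ _ hS x₃ (zero_add 1) h2
  let b : B.obj.obj (op ⊤) := Sheaf.H.equiv₀ B hT x₂
  have hb : π.hom.app (op ⊤) b = c := by
    rw [Sheaf.H.equiv₀_naturality hT π x₂, Sheaf.H.map_apply]
    have h4 : Ext.comp x₂ (Ext.mk₀ π) (add_zero 0) = x₃ := hx₂
    rw [h4]
    exact (Sheaf.H.equiv₀ C hT).apply_symm_apply c
  obtain ⟨a₁, ha₁⟩ := exists_of_cokernel_zero f V₁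
    (P₁ - B.obj.map (homOfLE (le_top : V₁ ≤ ⊤)).op b) (by
      show π.hom.app (op V₁) _ = 0
      rw [map_sub, ← hnat, hb, hc1, sub_self])
  obtain ⟨a₂, ha₂⟩ := exists_of_cokernel_zero f V₂
    (P₂ + B.obj.map (homOfLE (le_top : V₂ ≤ ⊤)).op b) (by
      show π.hom.app (op V₂) _ = 0
      rw [map_add, ← hnat, hb, hc2, map_neg, add_neg_cancel])
  apply hne a₁ a₂
  apply finj
  rw [hP, map_add, ← hnat, ← hnat, ha₁, ha₂, map_sub, map_add]
  have h5 : B.obj.map (homOfLE (inf_le_left : V₁ ⊓ V₂ ≤ V₁)).op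
      (B.obj.map (homOfLE (le_top : V₁ ≤ ⊤)).op b) =
      B.obj.map (homOfLE (inf_le_right : V₁ ⊓ V₂ ≤ V₂)).op
      (B.obj.map (homOfLE (le_top : V₂ ≤ ⊤)).op b) := by
    simp only [← ConcreteCategory.comp_apply, ← Functor.map_comp]
    rfl
  rw [h5]
  abel

end Pool.Agent.H835R3
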