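import Mathlib

/-!
# The sheaf of differential operators of level `e` in characteristic `p`

Definitions used in the statement of the result on `MP_5ac764_ag` (helper835).
-/

set_option autoImplicit false

open CategoryTheory AlgebraicGeometry TopologicalSpace Opposite

namespace Pool.Agent.H835R3

universe u

/-- Restriction of sections of the structure sheaf `O_X` from `V` to a smaller open `W`. -/
noncomputable abbrev res {X : Scheme.{u}} {V W : X.Opens} (h : W ≤ V) (s : Γ(X, V)) : Γ(X, W) :=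
  X.presheaf.map (homOfLE h).op s

/-- Sections over `U` of the sheaf `End_{O_X^q}(O_X)`, where `O_X^q` is the sheaf of `q`-th powers
of sections of `O_X`: a section over `U` is an endomorphism of the restriction `O_X|_U` as a sheaf of
abelian groups, i.e. a family of additive maps `O_X(V) → O_X(V)`, one for each open `V ⊆ U`,
commuting with the restriction maps (first condition), which is linear over `q`-th powers: it
satisfies `φ (a ^ q * s) = a ^ q * φ s` for all `a, s ∈ O_X(V)` (second condition). -/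
def PowLinEnd (X : Scheme.{u}) (q : ℕ) (U : X.Opens) :
    AddSubgroup (∀ V : {V : X.Opens // V ≤ U}, Γ(X, V.1) →+ Γ(X, V.1)) where
  carrier := {φ |
    (∀ (V W : {V : X.Opens // V ≤ U}) (h : W.1 ≤ V.1) (s : Γ(X, V.1)),
      res h (φ V s) = φ W (res h s)) ∧
    (∀ (V : {V : X.Opens // V ≤ U}) (a s : Γ(X, V.1)), φ V (a ^ q * s) = a ^ q * φ V s)}
  zero_mem' := by
    refine ⟨fun V W h s => ?_, fun V a s => ?_⟩
    · simp [res]
    · simp
  add_mem' := by
    rintro φ ψ ⟨h1, h2⟩ ⟨h3, h4⟩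
    refine ⟨fun V W h s => ?_, fun V a s => ?_⟩
    · simp only [Pi.add_apply, AddMonoidHom.add_apply, res, map_add]
      exact congrArg₂ (· + ·) (h1 V W h s) (h3 V W h s)
    · simp only [Pi.add_apply, AddMonoidHom.add_apply, h2, h4, mul_add]
  neg_mem' := by
    rintro φ ⟨h1, h2⟩
    refine ⟨fun V W h s => ?_, fun V a s => ?_⟩
    · simp only [Pi.neg_apply, AddMonoidHom.neg_apply, res, map_neg]
      exact congrArg (- ·) (h1 V W h s)
    · simp only [Pi.neg_apply, AddMonoidHom.neg_apply, h2, mul_neg]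

/-- The restriction map `End_{O_X^q}(O_X)(U) → End_{O_X^q}(O_X)(U')` for `U' ⊆ U`. -/
def PowLinEnd.restrict {X : Scheme.{u}} {q : ℕ} {U U' : X.Opens} (h : U' ≤ U) :
    PowLinEnd X q U →+ PowLinEnd X q U' where
  toFun φ := ⟨fun V => φ.1 ⟨V.1, V.2.trans h⟩,
    fun V W hWV s => φ.2.1 ⟨V.1, V.2.trans h⟩ ⟨W.1, W.2.trans h⟩ hWV s,
    fun V a s => φ.2.2 ⟨V.1, V.2.trans h⟩ a s⟩
  map_zero' := rfl
  map_add' _ _ := rfl

/-- The presheaf of abelian groups `U ↦ End_{O_X^q}(O_X)(U)`. -/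
noncomputable def powLinEndPresheaf (X : Scheme.{u}) (q : ℕ) :
    TopCat.Presheaf AddCommGrpCat.{u} (X : TopCat.{u}) where
  obj U := AddCommGrpCat.of (PowLinEnd X q U.unop)
  map {_ _} i := AddCommGrpCat.ofHom (PowLinEnd.restrict (leOfHom i.unop))
  map_id _ := rfl
  map_comp _ _ := rfl

lemma res_res {X : Scheme.{u}} {V W Z : X.Opens} (h : W ≤ V) (h' : Z ≤ W) (s : Γ(X, V)) :
    res h' (res h s) = res (h'.trans h) s := by
  simp only [res, ← ConcreteCategory.comp_apply, ← Functor.map_comp]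
  rfl

lemma res_self {X : Scheme.{u}} {V : X.Opens} (h : V ≤ V) (s : Γ(X, V)) : res h s = s := by
  have : (homOfLE h).op = 𝟙 (op V) := rfl
  simp [res, this]

lemma eq_of_cover {X : Scheme.{u}} {ι : Type*} (U : ι → X.Opens) (V : X.Opens)
    (hV : V ≤ iSup U) (s t : Γ(X, V))
    (h : ∀ i, res (inf_le_left : V ⊓ U i ≤ V) s = res (inf_le_left : V ⊓ U i ≤ V) t) : s = t := by
  refine TopCat.Sheaf.eq_of_locally_eq' X.sheaf (fun i => V ⊓ U i) V
    (fun i => homOfLE inf_le_left) ?_ s t h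
  rw [← inf_iSup_eq]
  exact le_inf le_rfl hV

lemma glue_of_cover {X : Scheme.{u}} {ι : Type*} (U : ι → X.Opens) (V : X.Opens)
    (hV : V ≤ iSup U) (sf : ∀ i, Γ(X, V ⊓ U i))
    (h : ∀ i j, res (inf_le_left : (V ⊓ U i) ⊓ (V ⊓ U j) ≤ V ⊓ U i) (sf i) =
      res (inf_le_right : (V ⊓ U i) ⊓ (V ⊓ U j) ≤ V ⊓ U j) (sf j)) :
    ∃! s : Γ(X, V), ∀ i, res (inf_le_left : V ⊓ U i ≤ V) s = sf i := by
  refine TopCat.Sheaf.existsUnique_gluing' X.sheaf (fun i => V ⊓ U i) V
    (fun i => homOfLE inf_le_left) ?_ sf h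
  rw [← inf_iSup_eq]
  exact le_inf le_rfl hV

/-- The presheaf `End_{O_X^q}(O_X)` is a sheaf. -/
theorem powLinEndPresheaf_isSheaf (X : Scheme.{u}) (q : ℕ) :
    (powLinEndPresheaf X q).IsSheaf := by
  rw [TopCat.Presheaf.isSheaf_iff_isSheafUniqueGluing]
  intro ι U sf hsf
  have hsf' : ∀ (i j : ι) (V : X.Opens) (hi : V ≤ U i) (hj : V ≤ U j) (s : Γ(X, V)),
      (sf i).1 ⟨V, hi⟩ s = (sf j).1 ⟨V, hj⟩ s := by
    intro i j V hi hj s
    have h1 := hsf i j
    have h2 : ((powLinEndPresheaf X q).map (Opens.infLELeft (U i) (U j)).op (sf i)).1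
        ⟨V, le_inf hi hj⟩ s =
      ((powLinEndPresheaf X q).map (Opens.infLERight (U i) (U j)).op (sf j)).1
        ⟨V, le_inf hi hj⟩ s := by
      rw [h1]
    exact h2
  -- the glued maps
  have hex : ∀ (V : {V : X.Opens // V ≤ iSup U}) (s : Γ(X, V.1)),
      ∃! t : Γ(X, V.1), ∀ i, res (inf_le_left : V.1 ⊓ U i ≤ V.1) t =
        (sf i).1 ⟨V.1 ⊓ U i, inf_le_right⟩ (res (inf_le_left : V.1 ⊓ U i ≤ V.1) s) := by
    intro V s
    refine glue_of_cover U V.1 V.2 _ ?_
    intro i j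
    have h1 := (sf i).2.1 ⟨V.1 ⊓ U i, inf_le_right⟩
      ⟨(V.1 ⊓ U i) ⊓ (V.1 ⊓ U j), inf_le_left.trans inf_le_right⟩ inf_le_left
      (res (inf_le_left : V.1 ⊓ U i ≤ V.1) s)
    have h2 := (sf j).2.1 ⟨V.1 ⊓ U j, inf_le_right⟩
      ⟨(V.1 ⊓ U i) ⊓ (V.1 ⊓ U j), inf_le_right.trans inf_le_right⟩ inf_le_right
      (res (inf_le_left : V.1 ⊓ U j ≤ V.1) s)
    rw [h1, h2, res_res, res_res]
    exact hsf' i j _ _ _ _
  choose g hg hguniq using hex
  have key : ∀ (V : {V : X.Opens // V ≤ iSup U}) (s t : Γ(X, V.1)),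
      (∀ i, res (inf_le_left : V.1 ⊓ U i ≤ V.1) t =
        (sf i).1 ⟨V.1 ⊓ U i, inf_le_right⟩ (res (inf_le_left : V.1 ⊓ U i ≤ V.1) s)) →
      g V s = t := fun V s t h => (hguniq V s t h).symm
  have hadd : ∀ V s t, g V (s + t) = g V s + g V t := by
    intro V s t
    apply key
    intro i
    have e1 : res (inf_le_left : V.1 ⊓ U i ≤ V.1) (s + t) =
      res (inf_le_left : V.1 ⊓ U i ≤ V.1) s + res (inf_le_left : V.1 ⊓ U i ≤ V.1) t := map_add _ _ _
    have e2 : res (inf_le_left : V.1 ⊓ U i ≤ V.1) (g V s + g V t) =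
      res (inf_le_left : V.1 ⊓ U i ≤ V.1) (g V s) + res (inf_le_left : V.1 ⊓ U i ≤ V.1) (g V t) :=
      map_add _ _ _
    rw [e1, e2, map_add, hg, hg]
  let φ : ∀ V : {V : X.Opens // V ≤ iSup U}, Γ(X, V.1) →+ Γ(X, V.1) := fun V =>
    AddMonoidHom.mk' (g V) (hadd V)
  have hφ : φ ∈ PowLinEnd X q (iSup U) := by
    refine ⟨fun V W h s => ?_, fun V a s => ?_⟩
    · refine (key W (res h s) (res h (g V s)) ?_).symm
      intro i
      have h1 := (sf i).2.1 ⟨V.1 ⊓ U i, inf_le_right⟩ ⟨W.1 ⊓ U i, inf_le_right⟩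
        (inf_le_inf_right _ h) (res (inf_le_left : V.1 ⊓ U i ≤ V.1) s)
      rw [res_res, res_res]
      rw [res_res] at h1
      rw [← h1, ← hg V s i, res_res]
    · refine key V (a ^ q * s) (a ^ q * g V s) ?_
      intro i
      have e1 : ∀ t : Γ(X, V.1), res (inf_le_left : V.1 ⊓ U i ≤ V.1) (a ^ q * t) =
        (res (inf_le_left : V.1 ⊓ U i ≤ V.1) a) ^ q * res (inf_le_left : V.1 ⊓ U i ≤ V.1) t := by
        intro t
        simp only [res, map_mul, map_pow]
      rw [e1, e1, (sf i).2.2, hg V s i]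
  refine ⟨⟨φ, hφ⟩, ?_, ?_⟩
  · intro i
    apply Subtype.ext
    funext V
    ext s
    refine key ⟨V.1, V.2.trans (le_iSup U i)⟩ s _ ?_
    intro j
    have h1 := (sf i).2.1 V ⟨V.1 ⊓ U j, inf_le_left.trans V.2⟩ inf_le_left s
    rw [h1]
    exact hsf' _ _ _ _ _ _
  · intro ψ hψ
    apply Subtype.ext
    funext V
    ext s
    refine (key V s (ψ.1 V s) ?_).symm
    intro i
    have h1 := hψ i
    have h2 : (sf i).1 ⟨V.1 ⊓ U i, inf_le_right⟩ (res (inf_le_left : V.1 ⊓ U i ≤ V.1) s) =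
        ψ.1 ⟨V.1 ⊓ U i, inf_le_left.trans V.2⟩ (res (inf_le_left : V.1 ⊓ U i ≤ V.1) s) := by
      rw [← h1]
      rfl
    rw [h2]
    exact ψ.2.1 V ⟨V.1 ⊓ U i, inf_le_left.trans V.2⟩ inf_le_left s

/-- The sheaf of abelian groups `D_X^{(e)} = End_{O_X^{p^e}}(O_X)` on the scheme `X`. -/
noncomputable def diffOp (X : Scheme.{u}) (p e : ℕ) :
    Sheaf (Opens.grothendieckTopology X) AddCommGrpCat.{u} :=
  ⟨powLinEndPresheaf X (p ^ e), powLinEndPresheaf_isSheaf X (p ^ e)⟩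

/-- The natural inclusion `D_X^{(e)} → D_X^{(e')}` for `e ≤ e'`: an endomorphism which is linear over
`p^e`-th powers is linear over `p^e'`-th powers. -/
noncomputable def diffOpIncl (X : Scheme.{u}) (p : ℕ) {e e' : ℕ} (h : e ≤ e') :
    diffOp X p e ⟶ diffOp X p e' where
  hom :=
  { app := fun U => AddCommGrpCat.ofHom
      { toFun := fun φ => ⟨φ.1, φ.2.1, fun V a s => by
          have hpow : p ^ e' = p ^ (e' - e) * p ^ e := by
            rw [← pow_add, Nat.sub_add_cancel h]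
          rw [hpow, pow_mul]
          exact φ.2.2 V (a ^ p ^ (e' - e)) s⟩
        map_zero' := rfl
        map_add' := fun _ _ => rfl } }

end Pool.Agent.H835R3
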