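import Pool.Agent.H835R3.Surf

/-!
The embedding of the Laurent polynomial ring in the function field of the surface, and extension of
operators.
-/

set_option autoImplicit false

namespace Pool.Agent.H835R3

open AddMonoidAlgebra AlgebraicGeometry HomogeneousLocalization CategoryTheory TopologicalSpace

section uniq

variable {X : Scheme.{0}} [IsIntegral X]

instance instNonemptyOfGeneric (W : X.Opens) [h : Fact (genericPoint X ∈ W)] : Nonempty W :=
  ⟨⟨_, h.out⟩⟩

/-- operators on the sections over an affine open extend to the function field -/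
lemma exists_ext {q q' : ℕ} (hq : 0 < q) (W : X.Opens) (hW : IsAffineOpen W)
    (hη : genericPoint X ∈ W) (φ : Γ(X, W) →+ Γ(X, W)) (hφ : IsSemi q q' φ) :
    ∃ Φ : X.functionField →+ X.functionField, IsSemi q q' Φ ∧
      ∀ s, Φ (gam W hη s) = gam W hη (φ s) := by
  have : Nonempty W := ⟨⟨_, hη⟩⟩
  have : IsFractionRing Γ(X, W) X.functionField := functionField_isFractionRing_of_isAffineOpen X W hW
  refine ⟨extHom hq φ hφ, extHom_isSemi hq φ hφ, ?_⟩
  intro s
  exact extHom_algebraMap (K := X.functionField) hq φ hφ s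

lemma ext_unique {q q' : ℕ} (hq : 0 < q) (W : X.Opens) (hW : IsAffineOpen W)
    (hη : genericPoint X ∈ W) (Φ Ψ : X.functionField →+ X.functionField)
    (hΦ : IsSemi q q' Φ) (hΨ : IsSemi q q' Ψ)
    (h : ∀ s, Φ (gam W hη s) = Ψ (gam W hη s)) : Φ = Ψ := by
  have : Nonempty W := ⟨⟨_, hη⟩⟩
  have : IsFractionRing Γ(X, W) X.functionField := functionField_isFractionRing_of_isAffineOpen X W hW
  ext z
  obtain ⟨⟨a, s⟩, hz⟩ := IsLocalization.surj (nonZeroDivisors Γ(X, W)) z
  have hz' : z * gam W hη s = gam W hη a := hz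
  have hs : gam W hη s ≠ 0 := by
    intro h0
    have h1 : (s : Γ(X, W)) = 0 := gam_injective W hη (by rw [h0, map_zero])
    exact nonZeroDivisors.ne_zero s.2 h1
  have h2 : z = ((gam W hη s)⁻¹) ^ q * gam W hη (a * (s : Γ(X, W)) ^ (q - 1)) := by
    rw [map_mul, map_pow, ← hz', inv_pow]
    obtain ⟨r, rfl⟩ : ∃ r, q = r + 1 := ⟨q - 1, by omega⟩
    simp only [Nat.add_sub_cancel, pow_succ]
    field_simp
  rw [h2, hΦ, hΨ, h]

end uniq

variable {k : Type} [Field k] {p : ℕ}

lemma degM_tau_pos (p : ℕ) : 0 < degM p (tau p) := by rw [degM_tau]; norm_num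

lemma alpha_tau_bijective : Function.Bijective (alpha k p (tau p)) := by
  refine ⟨alpha_injective _, fun l => ?_⟩
  refine (alpha_range (tau p) (degM_tau p) Set.univ (fun _ _ _ => Set.mem_univ _) (tau_H2 p) l).1 ?_
  intro u _
  exact Set.mem_univ u

/-- sections over the torus are the Laurent polynomials -/
noncomputable def eTor (k : Type) [Field k] (p : ℕ) : Lau k ≃+* Γ(XX k p, UU k p (tau p)) :=
  (RingEquiv.ofBijective (alpha k p (tau p)) alpha_tau_bijective).symm.trans
    (RingEquiv.ofBijective (beta (tau p)) (beta_bijective _ (degM_tau_pos p)))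

lemma eTor_alpha (z : Away (AA k p) (mo k p (tau p))) :
    eTor k p (alpha k p (tau p) z) = beta (tau p) z := by
  unfold eTor
  rw [RingEquiv.trans_apply]
  have h1 : (RingEquiv.ofBijective (alpha k p (tau p)) alpha_tau_bijective).symm
      (alpha k p (tau p) z) = z :=
    (RingEquiv.ofBijective (alpha k p (tau p)) alpha_tau_bijective).symm_apply_apply z
  rw [h1]
  rfl

/-- Laurent polynomials as rational functions -/
noncomputable def iota (k : Type) [Field k] (p : ℕ) : Lau k →+* (XX k p).functionField :=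
  (gam (UU k p (tau p)) (generic_mem k p _)).comp (eTor k p : Lau k →+* Γ(XX k p, UU k p (tau p)))

lemma iota_apply (l : Lau k) :
    iota k p l = gam (UU k p (tau p)) (generic_mem k p _) (eTor k p l) := rfl

lemma iota_injective : Function.Injective (iota k p) :=
  (gam_injective _ _).comp (eTor k p).injective

lemma gam_beta (s t : Bool) (z : Away (AA k p) (mo k p (vtx p s t))) :
    gam (UU k p (vtx p s t)) (generic_mem k p _) (beta _ z) = iota k p (alpha k p _ z) := by
  obtain ⟨z', h1, h2⟩ := beta_compat (tau_eq p s t) z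
  rw [iota_apply, ← h1, eTor_alpha, ← h2, gam_res]

/-- the sections over the chart `(s, t)`, inside the function field -/
lemma gam_chart (s t : Bool) (f : Γ(XX k p, UU k p (vtx p s t))) :
    ∃ l ∈ coneSub k (cone p s t), gam (UU k p (vtx p s t)) (generic_mem k p _) f = iota k p l := by
  obtain ⟨z, rfl⟩ := (beta_bijective (k := k) (vtx p s t) (by rw [degM_vtx]; norm_num)).2 f
  refine ⟨alpha k p _ z, ?_, gam_beta s t z⟩
  exact (alpha_range (vtx p s t) (degM_vtx p s t) (cone p s t) (vtx_H1 p s t) (vtx_H2 p s t) _).2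
    ⟨z, rfl⟩

lemma exists_chart (s t : Bool) (l : Lau k) (hl : l ∈ coneSub k (cone p s t)) :
    ∃ f : Γ(XX k p, UU k p (vtx p s t)),
      gam (UU k p (vtx p s t)) (generic_mem k p _) f = iota k p l := by
  obtain ⟨z, hz⟩ := (alpha_range (vtx p s t) (degM_vtx p s t) (cone p s t) (vtx_H1 p s t)
    (vtx_H2 p s t) l).1 hl
  exact ⟨beta _ z, by rw [gam_beta, hz]⟩

/-- extension of operators from the Laurent polynomials -/
lemma exists_extL {q q' : ℕ} (hq : 0 < q) (φ : Lau k →+ Lau k) (hφ : IsSemi q q' φ) :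
    ∃ Φ : (XX k p).functionField →+ (XX k p).functionField, IsSemi q q' Φ ∧
      ∀ l, Φ (iota k p l) = iota k p (φ l) := by
  let e := eTor k p
  let φ' : Γ(XX k p, UU k p (tau p)) →+ Γ(XX k p, UU k p (tau p)) :=
    ((e : Lau k ≃+ _).toAddMonoidHom.comp φ).comp (e.symm : _ ≃+ Lau k).toAddMonoidHom
  have hφ'app : ∀ s, φ' s = e (φ (e.symm s)) := fun s => rfl
  have hφ' : IsSemi q q' φ' := by
    intro a b
    rw [hφ'app, hφ'app, map_mul, map_pow, hφ, map_mul, map_pow, e.apply_symm_apply]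
  obtain ⟨Φ, h1, h2⟩ := exists_ext hq (UU k p (tau p)) (isAffineOpen_UU _ (degM_tau_pos p))
    (generic_mem k p _) φ' hφ'
  refine ⟨Φ, h1, fun l => ?_⟩
  rw [iota_apply, h2, hφ'app, iota_apply]
  congr 2
  exact congrArg φ (e.symm_apply_apply l)

lemma ext_uniqueL {q q' : ℕ} (hq : 0 < q)
    (Φ Ψ : (XX k p).functionField →+ (XX k p).functionField)
    (hΦ : IsSemi q q' Φ) (hΨ : IsSemi q q' Ψ)
    (h : ∀ l, Φ (iota k p l) = Ψ (iota k p l)) : Φ = Ψ := by
  refine ext_unique hq (UU k p (tau p)) (isAffineOpen_UU _ (degM_tau_pos p))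
    (generic_mem k p _) Φ Ψ hΦ hΨ ?_
  intro s
  have := h ((eTor k p).symm s)
  rw [iota_apply, (eTor k p).apply_symm_apply] at this
  exact this

/-- sections of endomorphisms from operators preserving cones -/
lemma exists_secs {q q' : ℕ} (hq : 0 < q) (φ : Lau k →+ Lau k)
    {ι : Type} (st : ι → Bool × Bool)
    (hpres : ∀ i, ∀ l ∈ coneSub k (cone p (st i).1 (st i).2),
      φ l ∈ coneSub k (cone p (st i).1 (st i).2))
    (V : (XX k p).Opens) (hV : V ≤ ⨆ i, UU k p (vtx p (st i).1 (st i).2))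
    (Φ : (XX k p).functionField →+ (XX k p).functionField) (hΦ : IsSemi q q' Φ)
    (hΦφ : ∀ l, Φ (iota k p l) = iota k p (φ l)) :
    ∃ ψ : ∀ W : {W : (XX k p).Opens // W ≤ V}, Γ(XX k p, W.1) →+ Γ(XX k p, W.1),
      (∀ (W : {W : (XX k p).Opens // W ≤ V}) (h : genericPoint (XX k p) ∈ W.1)
        (s : Γ(XX k p, W.1)), gam W.1 h (ψ W s) = Φ (gam W.1 h s)) ∧
      (∀ (W W' : {W : (XX k p).Opens // W ≤ V}) (h : W'.1 ≤ W.1) (s : Γ(XX k p, W.1)),
        res h (ψ W s) = ψ W' (res h s)) ∧
      (∀ (W : {W : (XX k p).Opens // W ≤ V}) (a s : Γ(XX k p, W.1)),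
        ψ W (a ^ q * s) = a ^ q' * ψ W s) := by
  refine exists_sections hq Φ hΦ (fun i => UU k p (vtx p (st i).1 (st i).2))
    (fun i => isAffineOpen_UU _ (by rw [degM_vtx]; norm_num)) (fun i => generic_mem k p _) ?_ V hV
  intro i s
  obtain ⟨l, hl, hsl⟩ := gam_chart _ _ s
  obtain ⟨f, hf⟩ := exists_chart _ _ (φ l) (hpres i l hl)
  exact ⟨f, by rw [hf, hsl, hΦφ]⟩

end Pool.Agent.H835R3
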