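import Mathlib

/-!
Extension of `(q, q')`-semilinear maps to fraction fields: maps `φ` with
`φ (a ^ q * b) = a ^ q' * φ b`.
-/

set_option autoImplicit false

namespace Pool.Agent.H835R3

/-- `φ (a ^ q * b) = a ^ q' * φ b` -/
def IsSemi {R : Type*} [CommRing R] (q q' : ℕ) (φ : R →+ R) : Prop :=
  ∀ a b : R, φ (a ^ q * b) = a ^ q' * φ b

section

variable {L K : Type*} [CommRing L] [IsDomain L] [Field K] [Algebra L K] [IsFractionRing L K]

/-- underlying function of the extension -/
noncomputable def extFun (q q' : ℕ) (φ : L →+ L) (z : K) : K :=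
  algebraMap L K (φ ((IsLocalization.sec (nonZeroDivisors L) z).1 *
    ((IsLocalization.sec (nonZeroDivisors L) z).2 : L) ^ (q - 1))) /
    (algebraMap L K (IsLocalization.sec (nonZeroDivisors L) z).2) ^ q'

lemma extFun_div {q q' : ℕ} (hq : 0 < q) (φ : L →+ L) (hφ : IsSemi q q' φ) (a s : L)
    (hs : s ≠ 0) (z : K) (hz : z * algebraMap L K s = algebraMap L K a) :
    extFun q q' φ z = algebraMap L K (φ (a * s ^ (q - 1))) / (algebraMap L K s) ^ q' := by
  have hinj : Function.Injective (algebraMap L K) := IsFractionRing.injective L K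
  obtain ⟨⟨b, t⟩, hsec⟩ : ∃ y, IsLocalization.sec (nonZeroDivisors L) z = y := ⟨_, rfl⟩
  have h1 : z * algebraMap L K t = algebraMap L K b := by
    have := IsLocalization.sec_spec (nonZeroDivisors L) z
    rw [hsec] at this
    exact this
  have ht : (t : L) ≠ 0 := nonZeroDivisors.ne_zero t.2
  have ht' : algebraMap L K t ≠ 0 := fun h => ht (hinj (by rw [h, map_zero]))
  have hs' : algebraMap L K s ≠ 0 := fun h => hs (hinj (by rw [h, map_zero]))
  have h2 : a * t = b * s := by
    apply hinj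
    rw [map_mul, map_mul, ← hz, ← h1]
    ring
  unfold extFun
  rw [hsec]
  simp only
  rw [div_eq_div_iff (pow_ne_zero _ ht') (pow_ne_zero _ hs')]
  rw [← map_pow, ← map_pow, ← map_mul, ← map_mul]
  congr 1
  rw [mul_comm (φ _) (s ^ q'), mul_comm (φ _) ((t : L) ^ q'), ← hφ, ← hφ]
  congr 1
  obtain ⟨r, rfl⟩ : ∃ r, q = r + 1 := ⟨q - 1, by omega⟩
  simp only [Nat.add_sub_cancel]
  have h3 : b * s * (s ^ r * (t : L) ^ r) = a * t * (s ^ r * (t : L) ^ r) := by rw [h2]
  calc s ^ (r + 1) * (b * (t : L) ^ r) = b * s * (s ^ r * (t : L) ^ r) := by ring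
    _ = a * t * (s ^ r * (t : L) ^ r) := h3
    _ = (t : L) ^ (r + 1) * (a * s ^ r) := by ring

/-- the extension of a semilinear map to the fraction field -/
noncomputable def extHom {q q' : ℕ} (hq : 0 < q) (φ : L →+ L) (hφ : IsSemi q q' φ) : K →+ K :=
  AddMonoidHom.mk' (extFun q q' φ) (by
    intro z w
    have hinj : Function.Injective (algebraMap L K) := IsFractionRing.injective L K
    obtain ⟨⟨a, s⟩, hz⟩ := IsLocalization.surj (nonZeroDivisors L) z
    obtain ⟨⟨b, t⟩, hw⟩ := IsLocalization.surj (nonZeroDivisors L) w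
    simp only at hz hw
    have hs : (s : L) ≠ 0 := nonZeroDivisors.ne_zero s.2
    have ht : (t : L) ≠ 0 := nonZeroDivisors.ne_zero t.2
    have hs' : algebraMap L K s ≠ 0 := fun h => hs (hinj (by rw [h, map_zero]))
    have ht' : algebraMap L K t ≠ 0 := fun h => ht (hinj (by rw [h, map_zero]))
    have hzw : (z + w) * algebraMap L K (s * t) = algebraMap L K (a * t + b * s) := by
      rw [map_mul, map_add, map_mul, map_mul, ← hz, ← hw]
      ring
    rw [extFun_div hq φ hφ a s hs z hz, extFun_div hq φ hφ b t ht w hw,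
      extFun_div hq φ hφ (a * t + b * s) (s * t) (mul_ne_zero hs ht) (z + w) hzw]
    obtain ⟨r, rfl⟩ : ∃ r, q = r + 1 := ⟨q - 1, by omega⟩
    simp only [Nat.add_sub_cancel]
    have h1 : (a * t + b * s) * (s * t : L) ^ r = (t : L) ^ (r + 1) * (a * (s : L) ^ r) +
        (s : L) ^ (r + 1) * (b * (t : L) ^ r) := by ring
    rw [h1, map_add, hφ, hφ]
    simp only [map_add, map_mul, map_pow, mul_pow]
    field_simp
    try ring)

lemma extHom_apply {q q' : ℕ} (hq : 0 < q) (φ : L →+ L) (hφ : IsSemi q q' φ) (a s : L)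
    (hs : s ≠ 0) (z : K) (hz : z * algebraMap L K s = algebraMap L K a) :
    extHom (K := K) hq φ hφ z = algebraMap L K (φ (a * s ^ (q - 1))) / (algebraMap L K s) ^ q' :=
  extFun_div hq φ hφ a s hs z hz

lemma extHom_algebraMap {q q' : ℕ} (hq : 0 < q) (φ : L →+ L) (hφ : IsSemi q q' φ) (a : L) :
    extHom (K := K) hq φ hφ (algebraMap L K a) = algebraMap L K (φ a) := by
  rw [extHom_apply hq φ hφ a 1 one_ne_zero _ (by simp)]
  simp

lemma extHom_isSemi {q q' : ℕ} (hq : 0 < q) (φ : L →+ L) (hφ : IsSemi q q' φ) :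
    IsSemi q q' (extHom (K := K) hq φ hφ) := by
  intro z w
  have hinj : Function.Injective (algebraMap L K) := IsFractionRing.injective L K
  obtain ⟨⟨a, s⟩, hz⟩ := IsLocalization.surj (nonZeroDivisors L) z
  obtain ⟨⟨b, t⟩, hw⟩ := IsLocalization.surj (nonZeroDivisors L) w
  simp only at hz hw
  have hs : (s : L) ≠ 0 := nonZeroDivisors.ne_zero s.2
  have ht : (t : L) ≠ 0 := nonZeroDivisors.ne_zero t.2
  have hs' : algebraMap L K s ≠ 0 := fun h => hs (hinj (by rw [h, map_zero]))
  have ht' : algebraMap L K t ≠ 0 := fun h => ht (hinj (by rw [h, map_zero]))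
  have hzw : (z ^ q * w) * algebraMap L K (s ^ q * t) = algebraMap L K (a ^ q * b) := by
    rw [map_mul, map_mul, map_pow, map_pow, ← hz, ← hw]
    ring
  rw [extHom_apply hq φ hφ b t ht w hw,
    extHom_apply hq φ hφ (a ^ q * b) (s ^ q * t) (mul_ne_zero (pow_ne_zero _ hs) ht) _ hzw]
  obtain ⟨r, rfl⟩ : ∃ r, q = r + 1 := ⟨q - 1, by omega⟩
  simp only [Nat.add_sub_cancel]
  have h1 : a ^ (r + 1) * b * ((s : L) ^ (r + 1) * t) ^ r =
      (a * (s : L) ^ r) ^ (r + 1) * (b * (t : L) ^ r) := by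
    rw [mul_pow, mul_pow, ← pow_mul, ← pow_mul, mul_comm (r + 1) r]
    ring
  rw [h1, hφ]
  have h2 : z = algebraMap L K a / algebraMap L K s := by
    rw [eq_div_iff hs', hz]
  rw [h2]
  simp only [map_mul, map_pow, mul_pow, div_pow]
  have e1 : algebraMap L K (s : L) ^ (r + 1) = algebraMap L K s ^ r * algebraMap L K s := pow_succ _ _
  rw [e1]
  simp only [mul_pow]
  field_simp

end

end Pool.Agent.H835R3
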