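import Pool.Agent.H835R3.Defs
import Pool.Agent.H835R3.Frac

/-!
Semilinear endomorphisms of the function field of an integral scheme which preserve the sections
over the members of an affine open cover of `V` come from endomorphisms of the sheaf `O_X|_V`.
-/

set_option autoImplicit false

open CategoryTheory AlgebraicGeometry TopologicalSpace Opposite

namespace Pool.Agent.H835R3

universe u

variable {X : Scheme.{u}} [IsIntegral X]

/-- the germ at the generic point -/
noncomputable def gam (V : X.Opens) (h : genericPoint X ∈ V) : Γ(X, V) →+* X.functionField :=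
  (X.presheaf.germ V (genericPoint X) h).hom

lemma gam_injective (V : X.Opens) (h : genericPoint X ∈ V) : Function.Injective (gam V h) :=
  germ_injective_of_isIntegral X (genericPoint X) h

lemma gam_res {V W : X.Opens} (hWV : W ≤ V) (h : genericPoint X ∈ W) (s : Γ(X, V)) :
    gam W h (res hWV s) = gam V (hWV h) s :=
  X.presheaf.germ_res_apply (homOfLE hWV) _ h s

lemma genericPoint_mem (V : X.Opens) (x : X) (hx : x ∈ V) : genericPoint X ∈ V :=
  ((genericPoint_spec X).mem_open_set_iff V.isOpen).mpr (by simpa using ⟨x, hx⟩)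

lemma subsingleton_of_not_mem (V : X.Opens) (h : genericPoint X ∉ V) : Subsingleton Γ(X, V) := by
  have : V = ⊥ := by
    ext x
    simp only [Opens.coe_bot, Set.mem_empty_iff_false, iff_false]
    intro hx
    exact h (genericPoint_mem V x hx)
  subst this
  infer_instance

lemma eq_of_gam (V : X.Opens) (s t : Γ(X, V))
    (h : ∀ h : genericPoint X ∈ V, gam V h s = gam V h t) : s = t := by
  by_cases hV : genericPoint X ∈ V
  · exact gam_injective V hV (h hV)
  · have := subsingleton_of_not_mem V hV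
    exact Subsingleton.elim _ _

variable {q q' : ℕ} (hq : 0 < q) (φ : X.functionField →+ X.functionField)

lemma local_exists (hq : 0 < q) (φ : X.functionField →+ X.functionField) (hφ : IsSemi q q' φ)
    (U : X.Opens) (hU : IsAffineOpen U) (hη : genericPoint X ∈ U)
    (hpres : ∀ s : Γ(X, U), ∃ t : Γ(X, U), gam U hη t = φ (gam U hη s))
    (W : X.Opens) (s : Γ(X, W)) (x : X) (hx : x ∈ W) (hxU : x ∈ U) :
    ∃ (W' : X.Opens) (hW' : W' ≤ W) (_ : x ∈ W') (hη' : genericPoint X ∈ W') (t : Γ(X, W')),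
      gam W' hη' t = φ (gam W (hW' hη') s) := by
  obtain ⟨f, hf1, hf2⟩ := hU.exists_basicOpen_le (V := W) ⟨x, hx⟩ hxU
  have hη' : genericPoint X ∈ X.basicOpen f := genericPoint_mem _ x hf2
  have hle : X.basicOpen f ≤ U := X.basicOpen_le f
  have := hU.isLocalization_basicOpen f
  obtain ⟨⟨a, ⟨_, n, rfl⟩⟩, hn⟩ := IsLocalization.surj (Submonoid.powers f) (res hf1 s)
  have hn' : res hf1 s * (res hle f) ^ n = res hle a := by
    have h1 : algebraMap Γ(X, U) Γ(X, X.basicOpen f) (f ^ n) = (res hle f) ^ n := by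
      rw [map_pow]; rfl
    rw [← h1]
    exact hn
  have hunit : IsUnit (res hle f) := X.toRingedSpace.isUnit_res_basicOpen f
  obtain ⟨b, hb⟩ := hpres (a * f ^ (n * (q - 1)))
  obtain ⟨v, hv⟩ := hunit.exists_right_inv
  refine ⟨X.basicOpen f, hf1, hf2, hη', res hle b * v ^ (n * q'), ?_⟩
  have hF : gam _ hη' (res hle f) * gam _ hη' v = 1 := by rw [← map_mul, hv, map_one]
  have hFne : gam _ hη' (res hle f) ≠ 0 := left_ne_zero_of_mul_eq_one hF
  have hvinv : gam _ hη' v = (gam _ hη' (res hle f))⁻¹ := eq_inv_of_mul_eq_one_right hF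
  rw [map_mul, map_pow, gam_res, hb, hvinv, gam_res]
  have hFne' : gam U hη f ≠ 0 := by rwa [gam_res] at hFne
  have h2 : gam W (hf1 hη') s = ((gam U hη f ^ n)⁻¹) ^ q * gam U hη (a * f ^ (n * (q - 1))) := by
    have h3 := congrArg (gam _ hη') hn'
    rw [map_mul, map_pow, gam_res, gam_res, gam_res] at h3
    rw [map_mul, ← h3, map_pow, inv_pow, ← pow_mul]
    have h4 : gam U hη f ^ (n * q) = gam U hη f ^ n * gam U hη f ^ (n * (q - 1)) := by
      rw [← pow_add]
      congr 1
      obtain ⟨r, rfl⟩ : ∃ r, q = r + 1 := ⟨q - 1, by omega⟩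
      simp only [Nat.add_sub_cancel]
      ring
    rw [h4]
    have h5 : gam U hη f ^ n ≠ 0 := pow_ne_zero _ hFne'
    have h6 : gam U hη f ^ (n * (q - 1)) ≠ 0 := pow_ne_zero _ hFne'
    field_simp
  rw [h2, hφ, mul_comm]
  congr 1
  rw [inv_pow, inv_pow, ← pow_mul]

/-- extension of semilinear maps to sections -/
theorem exists_sections (hq : 0 < q) (φ : X.functionField →+ X.functionField)
    (hφ : IsSemi q q' φ) {ι : Type} (U : ι → X.Opens) (hU : ∀ i, IsAffineOpen (U i))
    (hη : ∀ i, genericPoint X ∈ U i)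
    (hpres : ∀ i, ∀ s : Γ(X, U i), ∃ t : Γ(X, U i), gam (U i) (hη i) t = φ (gam (U i) (hη i) s))
    (V : X.Opens) (hV : V ≤ iSup U) :
    ∃ ψ : ∀ W : {W : X.Opens // W ≤ V}, Γ(X, W.1) →+ Γ(X, W.1),
      (∀ (W : {W : X.Opens // W ≤ V}) (h : genericPoint X ∈ W.1) (s : Γ(X, W.1)),
        gam W.1 h (ψ W s) = φ (gam W.1 h s)) ∧
      (∀ (W W' : {W : X.Opens // W ≤ V}) (h : W'.1 ≤ W.1) (s : Γ(X, W.1)),
        res h (ψ W s) = ψ W' (res h s)) ∧
      (∀ (W : {W : X.Opens // W ≤ V}) (a s : Γ(X, W.1)), ψ W (a ^ q * s) = a ^ q' * ψ W s) := by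
  have hex : ∀ (W : {W : X.Opens // W ≤ V}) (s : Γ(X, W.1)), ∃ t : Γ(X, W.1),
      ∀ h : genericPoint X ∈ W.1, gam W.1 h t = φ (gam W.1 h s) := by
    intro W s
    have hloc : ∀ x : W.1, ∃ (W' : X.Opens) (hW' : W' ≤ W.1) (_ : x.1 ∈ W')
        (hη' : genericPoint X ∈ W') (t : Γ(X, W')), gam W' hη' t = φ (gam W.1 (hW' hη') s) := by
      intro x
      obtain ⟨i, hi⟩ := Opens.mem_iSup.1 (hV (W.2 x.2))
      exact local_exists hq φ hφ (U i) (hU i) (hη i) (hpres i) W.1 s x.1 x.2 hi
    choose W' hW' hx hη' t ht using hloc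
    have hcompat : TopCat.Presheaf.IsCompatible X.sheaf.1 W' t := by
      intro x y
      have hle : genericPoint X ∈ W' x ⊓ W' y := ⟨hη' x, hη' y⟩
      have h1 : res (inf_le_left : W' x ⊓ W' y ≤ W' x) (t x) =
          res (inf_le_right : W' x ⊓ W' y ≤ W' y) (t y) := by
        apply gam_injective _ hle
        rw [gam_res, gam_res, ht, ht]
      exact h1
    obtain ⟨(r : Γ(X, W.1)), hr, -⟩ := TopCat.Sheaf.existsUnique_gluing' X.sheaf W' W.1
      (fun x => homOfLE (hW' x)) (fun x hx' => Opens.mem_iSup.2 ⟨⟨x, hx'⟩, hx ⟨x, hx'⟩⟩) t hcompat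
    refine ⟨r, fun h => ?_⟩
    have h1 : res (hW' ⟨genericPoint X, h⟩) r = t ⟨genericPoint X, h⟩ := hr ⟨genericPoint X, h⟩
    rw [← ht ⟨genericPoint X, h⟩, ← h1, gam_res]
  choose g hg using hex
  have hadd : ∀ W s t, g W (s + t) = g W s + g W t := by
    intro W s t
    apply eq_of_gam
    intro h
    rw [hg, map_add, map_add, map_add, hg, hg]
  refine ⟨fun W => AddMonoidHom.mk' (g W) (hadd W), ?_, ?_, ?_⟩
  · intro W h s
    exact hg W s h
  · intro W W' h s
    apply eq_of_gam
    intro h'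
    rw [gam_res]
    refine (hg W s _).trans ?_
    refine Eq.trans ?_ (hg W' (res h s) h').symm
    rw [gam_res]
  · intro W a s
    apply eq_of_gam
    intro h'
    refine (hg W (a ^ q * s) h').trans ?_
    have h1 : gam W.1 h' (a ^ q * s) = gam W.1 h' a ^ q * gam W.1 h' s := by
      rw [map_mul, map_pow]
    have h2 : gam W.1 h' (a ^ q' * g W s) = gam W.1 h' a ^ q' * gam W.1 h' (g W s) := by
      rw [map_mul, map_pow]
    refine Eq.trans ?_ h2.symm
    rw [h1, hφ, hg W s h']

end Pool.Agent.H835R3
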