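import Pool.Agent.H835R3.Chart
import Pool.Agent.H835R3.SchExt
import Pool.Agent.H342R2.U.D2c

/-!
The Hirzebruch surface `F_p` as `Proj` of the semigroup ring, its four charts and the embedding of
the sections in the Laurent polynomials.
-/

set_option autoImplicit false

namespace Pool.Agent.H835R3

open AddMonoidAlgebra AlgebraicGeometry HomogeneousLocalization CategoryTheory TopologicalSpace

/-- the vertices of the polygon -/
def vtx (p : ℕ) (s t : Bool) : Mon p :=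
  ⟨((if s then 0 else 1 + p * (if t then 0 else 1)), (if t then 0 else 1), 1), by
    cases s <;> cases t <;> simp [Mon]⟩

/-- the complementary vertices -/
def rest (p : ℕ) (s t : Bool) : Mon p := vtx p (!s) t + vtx p s (!t) + vtx p (!s) (!t)

/-- the sum of the vertices -/
def tau (p : ℕ) : Mon p :=
  vtx p true true + vtx p false true + vtx p true false + vtx p false false

lemma tau_eq (p : ℕ) (s t : Bool) : tau p = vtx p s t + rest p s t := by
  unfold tau rest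
  cases s <;> cases t <;> simp only [Bool.not_false, Bool.not_true] <;> abel

lemma degM_vtx (p : ℕ) (s t : Bool) : degM p (vtx p s t) = 1 := rfl

lemma degM_tau (p : ℕ) : degM p (tau p) = 4 := by
  unfold tau
  rw [map_add, map_add, map_add]
  rfl

lemma degM_rest (p : ℕ) (s t : Bool) : degM p (rest p s t) = 3 := by
  unfold rest
  rw [map_add, map_add]
  rfl

lemma piM_tau (p : ℕ) : piM p (tau p) = ((2 + p : ℤ), (2 : ℤ)) := by
  unfold tau
  rw [map_add, map_add, map_add]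
  ext
  · simp [piM, vtx]
    ring
  · simp [piM, vtx]

lemma vtx_H1 (p : ℕ) (s t : Bool) (u : Mon p) (n : ℕ) (h : degM p u = n * 1) :
    piM p u - n • piM p (vtx p s t) ∈ cone p s t := by
  obtain ⟨⟨i, j, d⟩, h1, h2⟩ := u
  simp only at h1 h2
  have hd : d = n := by simpa [degM] using h
  subst hd
  have h1' : (j : ℤ) ≤ d := by exact_mod_cast h1
  have h2' : (i : ℤ) ≤ d + p * j := by exact_mod_cast h2
  have hi : (0 : ℤ) ≤ i := Int.natCast_nonneg i
  have hj : (0 : ℤ) ≤ j := Int.natCast_nonneg j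
  cases s <;> cases t <;>
    simp [cone, piM, vtx] <;> first
      | (constructor <;> nlinarith)
      | nlinarith

lemma vtx_H2 (p : ℕ) (s t : Bool) (w : ℤ × ℤ) (hw : w ∈ cone p s t) :
    ∃ (n : ℕ) (u : Mon p), degM p u = n * 1 ∧ piM p u = w + n • piM p (vtx p s t) := by
  obtain ⟨a, b⟩ := w
  obtain ⟨h1, h2⟩ := hw
  have hp : (0 : ℤ) ≤ p := Int.natCast_nonneg p
  -- general principle
  have key : ∀ (n : ℕ) (i j : ℤ), 0 ≤ i → 0 ≤ j → j ≤ n → i ≤ n + p * j →
      (i, j) = (a, b) + n • piM p (vtx p s t) →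
      ∃ (n : ℕ) (u : Mon p), degM p u = n * 1 ∧ piM p u = (a, b) + n • piM p (vtx p s t) := by
    intro n i j hi hj hjn hin he
    lift i to ℕ using hi
    lift j to ℕ using hj
    refine ⟨n, ⟨(i, j, n), ⟨by exact_mod_cast hjn, by exact_mod_cast hin⟩⟩, by simp [degM], ?_⟩
    rw [← he]
    rfl
  obtain ⟨A, hA1, hA2⟩ : ∃ A : ℕ, a ≤ A ∧ -a ≤ A := ⟨a.natAbs, by omega, by omega⟩
  obtain ⟨B, hB1, hB2⟩ : ∃ B : ℕ, b ≤ B ∧ -b ≤ B := ⟨b.natAbs, by omega, by omega⟩
  have hA : (0 : ℤ) ≤ A := Int.natCast_nonneg A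
  have hB : (0 : ℤ) ≤ B := Int.natCast_nonneg B
  have hAB : (0 : ℤ) ≤ (A + B) * p := by positivity
  cases s <;> cases t <;> simp only [Bool.false_eq_true, if_false, if_true] at h1 h2
  · -- a ≤ p b, b ≤ 0
    refine key (A + B) (a + (A + B) * (1 + p)) (b + (A + B)) ?_ ?_ ?_ ?_ ?_
    · nlinarith
    · omega
    · push_cast; omega
    · push_cast; nlinarith
    · ext <;> simp [piM, vtx]
  · -- a ≤ p b, 0 ≤ b
    refine key (A + B) (a + (A + B)) b ?_ ?_ ?_ ?_ ?_
    · omega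
    · omega
    · push_cast; omega
    · push_cast; linarith
    · ext <;> simp [piM, vtx]
  · -- 0 ≤ a, b ≤ 0
    refine key (A + B) a (b + (A + B)) ?_ ?_ ?_ ?_ ?_
    · omega
    · omega
    · push_cast; omega
    · have h7 : (0 : ℤ) ≤ p * (b + (A + B)) := by
        apply mul_nonneg hp; omega
      push_cast; linarith
    · ext <;> simp [piM, vtx]
  · -- 0 ≤ a, 0 ≤ b
    refine key (A + B) a b ?_ ?_ ?_ ?_ ?_
    · omega
    · omega
    · push_cast; omega
    · have h7 : (0 : ℤ) ≤ p * b := mul_nonneg hp h2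
      push_cast; linarith
    · ext <;> simp [piM, vtx]

lemma tau_H2 (p : ℕ) (w : ℤ × ℤ) (_ : w ∈ (Set.univ : Set (ℤ × ℤ))) :
    ∃ (n : ℕ) (u : Mon p), degM p u = n * 4 ∧ piM p u = w + n • piM p (tau p) := by
  obtain ⟨a, b⟩ := w
  have hp : (0 : ℤ) ≤ p := Int.natCast_nonneg p
  obtain ⟨A, hA1, hA2⟩ : ∃ A : ℕ, a ≤ A ∧ -a ≤ A := ⟨a.natAbs, by omega, by omega⟩
  obtain ⟨B, hB1, hB2⟩ : ∃ B : ℕ, b ≤ B ∧ -b ≤ B := ⟨b.natAbs, by omega, by omega⟩
  have hA : (0 : ℤ) ≤ A := Int.natCast_nonneg A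
  have hB : (0 : ℤ) ≤ B := Int.natCast_nonneg B
  have hAB : (0 : ℤ) ≤ (A + B) * p := by positivity
  obtain ⟨i, hi⟩ : ∃ i : ℕ, (i : ℤ) = a + (A + B) * (2 + p) := by
    refine ⟨(a + (A + B) * (2 + p)).toNat, Int.toNat_of_nonneg ?_⟩
    nlinarith
  obtain ⟨j, hj⟩ : ∃ j : ℕ, (j : ℤ) = b + (A + B) * 2 := by
    refine ⟨(b + (A + B) * 2).toNat, Int.toNat_of_nonneg ?_⟩
    nlinarith
  refine ⟨A + B, ⟨(i, j, (A + B) * 4), ⟨?_, ?_⟩⟩, rfl, ?_⟩
  · have : (j : ℤ) ≤ ((A + B) * 4 : ℕ) := by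
      push_cast; rw [hj]; linarith
    exact_mod_cast this
  · have : (i : ℤ) ≤ (((A + B) * 4 + p * j : ℕ) : ℤ) := by
      push_cast; rw [hi, hj]
      nlinarith [mul_nonneg hp hA, mul_nonneg hp hB, mul_nonneg hp (sub_nonneg.2 hB2)]
    exact_mod_cast this
  · rw [piM_tau]
    ext
    · simp [piM, hi]
    · simp [piM, hj]

end Pool.Agent.H835R3
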