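import Pool.Agent.H835R3.Defs

/-!
# Definitions used in the statement of the result on `MP_5ac764_ag` (helper835)

The sheaf `D_X^{(e)}` of endomorphisms of `O_X` linear over `p^e`-th powers, globally F-split schemes
and projective schemes over a field.
-/

set_option autoImplicit false

open CategoryTheory AlgebraicGeometry TopologicalSpace Opposite MvPolynomial

namespace Pool.Agent.H835R3.Stmt

universe u

/-- The ring `O_X(V)` of sections of the structure sheaf. -/
def Sec {X : Scheme.{u}} (V : X.Opens) : Type u := X.presheaf.obj (op V)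

noncomputable instance instCommRingSec {X : Scheme.{u}} (V : X.Opens) : CommRing (Sec V) :=
  (X.presheaf.obj (op V)).commRing

/-- The restriction map `O_X(V) → O_X(W)` for `W ⊆ V`. -/
noncomputable def rho {X : Scheme.{u}} {V W : X.Opens} (h : W ≤ V) (s : Sec V) : Sec W :=
  (X.presheaf.map (homOfLE h).op).hom s

/-- The type of additive maps `O_X(V) → O_X(V)`. -/
def AddEnd {X : Scheme.{u}} (V : X.Opens) : Type u := AddMonoid.End (Sec V)

noncomputable instance instAddCommGroupAddEnd {X : Scheme.{u}} (V : X.Opens) :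
    AddCommGroup (AddEnd V) :=
  AddMonoidHom.instAddCommGroup

/-- The value of an additive map. -/
noncomputable def AddEnd.ap {X : Scheme.{u}} {V : X.Opens} (f : AddEnd V) (s : Sec V) : Sec V :=
  (show AddMonoid.End (Sec V) from f) s

/-- The type of open subsets of the open set `U` of `X`. -/
def Below {X : Scheme.{u}} (U : X.Opens) : Type u := {V : X.Opens // V ≤ U}

/-- The open set underlying an element of `Below U`. -/
def Below.op {X : Scheme.{u}} {U : X.Opens} (V : Below U) : X.Opens := V.1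

/-- Families of additive maps `O_X(V) → O_X(V)`, one for each open `V ⊆ U`. -/
def Fam {X : Scheme.{u}} (U : X.Opens) : Type u := ∀ V : Below U, AddEnd V.op

noncomputable instance instAddCommGroupFam {X : Scheme.{u}} (U : X.Opens) :
    AddCommGroup (Fam U) :=
  Pi.addCommGroup

/-- The family `φ` is an endomorphism of the sheaf of abelian groups `O_X|_U` (it commutes with
restrictions) which is linear over `q`-th powers: `φ (a ^ q * s) = a ^ q * φ s`. -/
def IsPowLin {X : Scheme.{u}} (q : ℕ) {U : X.Opens} (φ : Fam U) : Prop :=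
  (∀ (V W : Below U) (h : W.op ≤ V.op) (s : Sec V.op), rho h ((φ V).ap s) = (φ W).ap (rho h s)) ∧
  (∀ (V : Below U) (a s : Sec V.op), (φ V).ap (a ^ q * s) = a ^ q * (φ V).ap s)

lemma isPowLin_zero {X : Scheme.{u}} (q : ℕ) (U : X.Opens) : IsPowLin q (0 : Fam U) := by
  refine ⟨fun V W h s => ?_, fun V a s => ?_⟩
  · exact map_zero (X.presheaf.map (homOfLE h).op).hom
  · exact (mul_zero _).symm

lemma IsPowLin.add {X : Scheme.{u}} {q : ℕ} {U : X.Opens} {φ ψ : Fam U} (h : IsPowLin q φ)
    (h' : IsPowLin q ψ) : IsPowLin q (φ + ψ) := by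
  refine ⟨fun V W hVW s => ?_, fun V a s => ?_⟩
  · refine (map_add (X.presheaf.map (homOfLE hVW).op).hom ((φ V).ap s) ((ψ V).ap s)).trans ?_
    exact congrArg₂ (fun x y : Sec W.op => x + y) (h.1 V W hVW s) (h'.1 V W hVW s)
  · refine (congrArg₂ (fun x y : Sec V.op => x + y) (h.2 V a s) (h'.2 V a s)).trans ?_
    exact (mul_add _ _ _).symm

lemma IsPowLin.neg {X : Scheme.{u}} {q : ℕ} {U : X.Opens} {φ : Fam U} (h : IsPowLin q φ) :
    IsPowLin q (-φ) := by
  refine ⟨fun V W hVW s => ?_, fun V a s => ?_⟩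
  · refine (map_neg (X.presheaf.map (homOfLE hVW).op).hom ((φ V).ap s)).trans ?_
    exact congrArg (fun x : Sec W.op => -x) (h.1 V W hVW s)
  · refine (congrArg (fun x : Sec V.op => -x) (h.2 V a s)).trans ?_
    exact (mul_neg _ _).symm

/-- The group of sections over `U` of `End_{O_X^q}(O_X)`, the sheaf of endomorphisms of `O_X` linear
over the subsheaf `O_X^q` of `q`-th powers, as a subgroup of the group of families. -/
noncomputable def powSub {X : Scheme.{u}} (q : ℕ) (U : X.Opens) : AddSubgroup (Fam U) where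
  carrier := {φ | IsPowLin q φ}
  zero_mem' := isPowLin_zero q U
  add_mem' := IsPowLin.add
  neg_mem' := IsPowLin.neg

/-- The group of sections over `U` of `End_{O_X^q}(O_X)`. -/
def PowEnd {X : Scheme.{u}} (q : ℕ) (U : X.Opens) : Type u := powSub q U

noncomputable instance instAddCommGroupPowEnd {X : Scheme.{u}} (q : ℕ) (U : X.Opens) :
    AddCommGroup (PowEnd q U) :=
  (powSub q U).toAddCommGroup

/-- The family of a section. -/
noncomputable def PowEnd.fam {X : Scheme.{u}} {q : ℕ} {U : X.Opens} (φ : PowEnd q U) : Fam U := φ.1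

lemma PowEnd.prop {X : Scheme.{u}} {q : ℕ} {U : X.Opens} (φ : PowEnd q U) : IsPowLin q φ.fam := φ.2

/-- A section from a family. -/
def PowEnd.mk {X : Scheme.{u}} {q : ℕ} {U : X.Opens} (φ : Fam U) (h : IsPowLin q φ) :
    PowEnd q U := ⟨φ, h⟩

/-- The inclusion `Below U' → Below U` for `U' ⊆ U`. -/
def Below.up {X : Scheme.{u}} {U U' : X.Opens} (h : U' ≤ U) (V : Below U') : Below U :=
  ⟨V.1, V.2.trans h⟩

/-- The restriction of families. -/
noncomputable def famRes {X : Scheme.{u}} {U U' : X.Opens} (h : U' ≤ U) (φ : Fam U) : Fam U' :=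
  fun V => φ (V.up h)

lemma IsPowLin.res {X : Scheme.{u}} {q : ℕ} {U U' : X.Opens} (h : U' ≤ U) {φ : Fam U}
    (hφ : IsPowLin q φ) : IsPowLin q (famRes h φ) :=
  ⟨fun V W hVW s => hφ.1 (V.up h) (W.up h) hVW s, fun V a s => hφ.2 (V.up h) a s⟩

/-- The restriction of sections of `End_{O_X^q}(O_X)`. -/
noncomputable def powResFun {X : Scheme.{u}} (q : ℕ) {U U' : X.Opens} (h : U' ≤ U)
    (φ : PowEnd q U) : PowEnd q U' :=
  PowEnd.mk (famRes h φ.fam) (IsPowLin.res h φ.prop)

lemma powResFun_add {X : Scheme.{u}} (q : ℕ) {U U' : X.Opens} (h : U' ≤ U) (φ ψ : PowEnd q U) :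
    powResFun q h (φ + ψ) = powResFun q h φ + powResFun q h ψ := rfl

/-- The restriction of sections of `End_{O_X^q}(O_X)`, as a homomorphism. -/
noncomputable def powRes {X : Scheme.{u}} (q : ℕ) {U U' : X.Opens} (h : U' ≤ U) :
    PowEnd q U →+ PowEnd q U' :=
  AddMonoidHom.mk' (powResFun q h) (powResFun_add q h)

lemma IsPowLin.incl {X : Scheme.{u}} {p e e' : ℕ} (h : e ≤ e') {U : X.Opens} {φ : Fam U}
    (hφ : IsPowLin (p ^ e) φ) : IsPowLin (p ^ e') φ := by
  refine ⟨hφ.1, fun V a s => ?_⟩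
  have hpow : p ^ e' = p ^ (e' - e) * p ^ e := by
    rw [← pow_add, Nat.sub_add_cancel h]
  rw [hpow, pow_mul]
  exact hφ.2 V (a ^ p ^ (e' - e)) s

/-- The inclusion `End_{O_X^{p^e}}(O_X)(U) → End_{O_X^{p^e'}}(O_X)(U)` for `e ≤ e'`: the same family,
regarded as linear over `p^e'`-th powers. -/
noncomputable def powInclFun {X : Scheme.{u}} (p : ℕ) {e e' : ℕ} (h : e ≤ e') (U : X.Opens)
    (φ : PowEnd (p ^ e) U) : PowEnd (p ^ e') U :=
  PowEnd.mk φ.fam (IsPowLin.incl h φ.prop)

lemma powInclFun_add {X : Scheme.{u}} (p : ℕ) {e e' : ℕ} (h : e ≤ e') (U : X.Opens)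
    (φ ψ : PowEnd (p ^ e) U) :
    powInclFun p h U (φ + ψ) = powInclFun p h U φ + powInclFun p h U ψ := rfl

/-- The inclusion, as a homomorphism. -/
noncomputable def powIncl {X : Scheme.{u}} (p : ℕ) {e e' : ℕ} (h : e ≤ e') (U : X.Opens) :
    PowEnd (p ^ e) U →+ PowEnd (p ^ e') U :=
  AddMonoidHom.mk' (powInclFun p h U) (powInclFun_add p h U)

/-- The abelian group of sections, as an object of the category of abelian groups. -/
noncomputable def powObj {X : Scheme.{u}} (q : ℕ) (U : X.Opens) : AddCommGrpCat.{u} :=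
  AddCommGrpCat.of (PowEnd q U)

/-- The restriction, as a morphism in the category of abelian groups. -/
noncomputable def powMap {X : Scheme.{u}} (q : ℕ) {U U' : X.Opens} (i : U' ⟶ U) :
    powObj q U ⟶ powObj q U' :=
  AddCommGrpCat.ofHom (powRes q i.le)

lemma powMap_id {X : Scheme.{u}} (q : ℕ) (U : X.Opens) :
    powMap q (𝟙 U) = 𝟙 (powObj q U) := rfl

lemma powMap_comp {X : Scheme.{u}} (q : ℕ) {U U' U'' : X.Opens} (i : U'' ⟶ U') (j : U' ⟶ U) :
    powMap q (i ≫ j) = powMap q j ≫ powMap q i := rfl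

/-- The presheaf of abelian groups `End_{O_X^q}(O_X)`. -/
noncomputable def powEndPresheaf (X : Scheme.{u}) (q : ℕ) :
    TopCat.Presheaf AddCommGrpCat.{u} (X : TopCat.{u}) where
  obj U := powObj q U.unop
  map {_ _} i := powMap q i.unop
  map_id U := powMap_id q U.unop
  map_comp i j := powMap_comp q j.unop i.unop

/-- This presheaf is a sheaf. -/
theorem powEndPresheaf_isSheaf (X : Scheme.{u}) (q : ℕ) : (powEndPresheaf X q).IsSheaf :=
  Pool.Agent.H835R3.powLinEndPresheaf_isSheaf X q

/-- The sheaf of abelian groups `D_X^{(e)} = End_{O_X^{p^e}}(O_X)` on the scheme `X`. -/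
noncomputable def diffOp (X : Scheme.{u}) (p e : ℕ) :
    Sheaf (Opens.grothendieckTopology X) AddCommGrpCat.{u} :=
  ⟨powEndPresheaf X (p ^ e), powEndPresheaf_isSheaf X (p ^ e)⟩

/-- The inclusion over `U`, as a morphism in the category of abelian groups. -/
noncomputable def powInclHom {X : Scheme.{u}} (p : ℕ) {e e' : ℕ} (h : e ≤ e') (U : X.Opens) :
    powObj (p ^ e) U ⟶ powObj (p ^ e') U :=
  AddCommGrpCat.ofHom (powIncl p h U)

/-- The natural inclusion of presheaves. -/
noncomputable def presheafIncl (X : Scheme.{u}) (p : ℕ) {e e' : ℕ} (h : e ≤ e') :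
    powEndPresheaf X (p ^ e) ⟶ powEndPresheaf X (p ^ e') where
  app U := powInclHom p h U.unop
  naturality _ _ _ := rfl

/-- The natural inclusion `D_X^{(e)} → D_X^{(e')}` for `e ≤ e'`. -/
noncomputable def diffOpIncl (X : Scheme.{u}) (p : ℕ) {e e' : ℕ} (h : e ≤ e') :
    diffOp X p e ⟶ diffOp X p e' where
  hom := presheafIncl X p h

/-- Conditions on a left inverse `σ` of `O_X → F_* O_X`: compatibility with restriction,
`O_X`-linearity `σ (a ^ p * s) = a * σ s` and `σ 1 = 1`. -/
def IsSplitting {X : Scheme.{u}} (p : ℕ) (σ : ∀ V : X.Opens, AddEnd V) : Prop :=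
  (∀ (V W : X.Opens) (h : W ≤ V) (s : Sec V), rho h ((σ V).ap s) = (σ W).ap (rho h s)) ∧
  (∀ (V : X.Opens) (a s : Sec V), (σ V).ap (a ^ p * s) = a * (σ V).ap s) ∧
  ∀ V : X.Opens, (σ V).ap 1 = 1

/-- `X` is globally F-split (in characteristic `p`): the map `O_X → F_* O_X`, `a ↦ a ^ p`, has a left
inverse `σ` which is `O_X`-linear. In terms of sections: additive maps `σ_V : O_X(V) → O_X(V)` for
all open `V`, compatible with restriction, with `σ (a ^ p * s) = a * σ s` and `σ 1 = 1`. -/
def GloballyFSplit (X : Scheme.{u}) (p : ℕ) : Prop :=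
  ∃ σ : ∀ V : X.Opens, AddEnd V, IsSplitting p σ

attribute [local instance] MvPolynomial.gradedAlgebra

/-- Projective space `ℙ^n` over the field `k`, as `Proj k[X_0, …, X_n]`. -/
noncomputable abbrev PP (k : Type) [Field k] (n : ℕ) : Scheme.{0} :=
  Proj (homogeneousSubmodule (Fin (n + 1)) k)

/-- The structure morphism `Proj ℬ ⟶ Spec k` of the `Proj` of a graded `k`-algebra. -/
noncomputable def toSpecK {k : Type} [Field k] {R : Type} [CommRing R] [Algebra k R]
    (ℬ : ℕ → Submodule k R) [GradedAlgebra ℬ] : Proj ℬ ⟶ Spec (.of k) :=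
  Proj.toSpecZero ℬ ≫ Spec.map (CommRingCat.ofHom (algebraMap k (ℬ 0)))

/-- The `k`-scheme `f : X ⟶ Spec k` is projective: it is a closed subscheme of some `ℙ^n`. -/
def IsProjectiveOver {k : Type} [Field k] {X : Scheme.{0}} (f : X ⟶ Spec (.of k)) : Prop :=
  ∃ (n : ℕ) (i : X ⟶ PP k n), IsClosedImmersion i ∧
    i ≫ toSpecK (homogeneousSubmodule (Fin (n + 1)) k) = f

end Pool.Agent.H835R3.Stmt
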