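import Pool.Agent.H835R3.Fld
import Pool.Agent.H835R3.Coh
import Pool.Agent.H835R3.Stmt

/-!
Non-injectivity of `H¹(X, D^(e)) → H¹(X, D^(e'))` on the Hirzebruch surface `F_p`.
-/

set_option autoImplicit false

namespace Pool.Agent.H835R3

open AddMonoidAlgebra AlgebraicGeometry HomogeneousLocalization CategoryTheory TopologicalSpace
  Opposite

universe u

instance instMonoDiffOpIncl (X : Scheme.{u}) (p : ℕ) {e e' : ℕ} (h : e ≤ e') :
    Mono (Stmt.diffOpIncl X p h) := by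
  have h1 : Mono ((sheafToPresheaf _ _).map (Stmt.diffOpIncl X p h)) := by
    have h2 : ∀ U, Mono (((sheafToPresheaf _ _).map (Stmt.diffOpIncl X p h)).app U) := by
      intro U
      rw [AddCommGrpCat.mono_iff_injective]
      intro φ ψ hφψ
      apply Subtype.ext
      exact congrArg (fun x : Stmt.PowEnd (p ^ e') U.unop => x.fam) hφψ
    exact NatTrans.mono_of_mono_app _
  exact (sheafToPresheaf _ _).mono_of_mono_map h1

lemma isSemi_pow {R : Type*} [CommRing R] (p : ℕ) {e e' : ℕ} (h : e ≤ e') (Φ : R →+ R)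
    (hΦ : IsSemi (p ^ e) (p ^ e) Φ) : IsSemi (p ^ e') (p ^ e') Φ := by
  intro a b
  have hpow : p ^ e' = p ^ (e' - e) * p ^ e := by
    rw [← pow_add, Nat.sub_add_cancel h]
  rw [hpow, pow_mul]
  exact hΦ _ _

variable {k : Type} [Field k] {p : ℕ} [hp : Fact p.Prime] [CharP k p]

/-- the two halves of the surface -/
noncomputable def VV (k : Type) [Field k] (p : ℕ) (s : Bool) : (XX k p).Opens :=
  ⨆ t : Bool, UU k p (vtx p s t)

omit hp [CharP k p] in
lemma VV_sup : VV k p true ⊔ VV k p false = ⊤ := by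
  rw [eq_top_iff]
  intro x _
  obtain ⟨s, t, hx⟩ := exists_mem_UU k p x
  cases s
  · exact Or.inr (Opens.mem_iSup.2 ⟨t, hx⟩)
  · exact Or.inl (Opens.mem_iSup.2 ⟨t, hx⟩)

omit hp [CharP k p] in
lemma UU_le_VV (s t : Bool) : UU k p (vtx p s t) ≤ VV k p s :=
  le_iSup (fun t : Bool => UU k p (vtx p s t)) t

lemma mem_cone_Y (p r : ℕ) : ((0 : ℤ), (p : ℤ) ^ r) ∈ cone p true true :=
  ⟨le_rfl, show (0 : ℤ) ≤ (p : ℤ) ^ r by positivity⟩

lemma mem_cone_A (p : ℕ) : ((-1 : ℤ), (0 : ℤ)) ∈ cone p false true :=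
  ⟨by simp, le_rfl⟩

lemma mem_cone_B (p r : ℕ) : ((p : ℤ) ^ (r + 1), (p : ℤ) ^ r) ∈ cone p false true :=
  ⟨by simp [pow_succ, mul_comm], show (0 : ℤ) ≤ (p : ℤ) ^ r by positivity⟩

omit [CharP k p] in
lemma contra (r : ℕ) (a₁ : PowLinEnd (XX k p) (p ^ (r + 1)) (VV k p true))
    (a₃ : PowLinEnd (XX k p) (p ^ (r + 1)) (VV k p false))
    (Φ0 : (XX k p).functionField →+ (XX k p).functionField)
    (hΦ0' : ∀ l, Φ0 (iota k p l) = iota k p (monoOp k (Q0 p r) (-1, -1) l))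
    (hP' : ∀ (W : (XX k p).Opens) (h1 : W ≤ VV k p true) (h3 : W ≤ VV k p false)
      (h : genericPoint (XX k p) ∈ W) (s : Γ(XX k p, W)),
      Φ0 (gam W h s) = gam W h (a₁.1 ⟨W, h1⟩ s) + gam W h (a₃.1 ⟨W, h3⟩ s)) : False := by
  have hp0 : 0 < p := hp.out.pos
  have hpz : (0 : ℤ) < p := by exact_mod_cast hp0
  have hprz : (0 : ℤ) < (p : ℤ) ^ r := pow_pos hpz r
  have hp1 : (1 : ℤ) < p := by exact_mod_cast hp.out.one_lt
  -- the section `y^(p^r)` on both charts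
  obtain ⟨Y, hY⟩ := exists_chart (k := k) (p := p) true true (single ((0 : ℤ), (p : ℤ) ^ r) (1 : k))
    (single_mem_coneSub (mem_cone_Y p r) _)
  obtain ⟨A, hA⟩ := exists_chart (k := k) (p := p) false true (single ((-1 : ℤ), (0 : ℤ)) (1 : k))
    (single_mem_coneSub (mem_cone_A p) _)
  obtain ⟨B, hB⟩ := exists_chart (k := k) (p := p) false true
    (single ((p : ℤ) ^ (r + 1), (p : ℤ) ^ r) (1 : k))
    (single_mem_coneSub (mem_cone_B p r) _)
  have hW1 : UU k p (vtx p true true) ⊓ UU k p (vtx p false true) ≤ VV k p true :=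
    inf_le_left.trans (UU_le_VV _ _)
  have hW3 : UU k p (vtx p true true) ⊓ UU k p (vtx p false true) ≤ VV k p false :=
    inf_le_right.trans (UU_le_VV _ _)
  have hηW : genericPoint (XX k p) ∈ UU k p (vtx p true true) ⊓ UU k p (vtx p false true) :=
    ⟨generic_mem k p _, generic_mem k p _⟩
  have hres : res (inf_le_left : UU k p (vtx p true true) ⊓ UU k p (vtx p false true) ≤ _) Y =
      (res (inf_le_right : UU k p (vtx p true true) ⊓ UU k p (vtx p false true) ≤ _) A)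
        ^ (p ^ (r + 1)) *
      res (inf_le_right : UU k p (vtx p true true) ⊓ UU k p (vtx p false true) ≤ _) B := by
    apply gam_injective _ hηW
    rw [map_mul, map_pow, gam_res, gam_res, gam_res, hY, hA, hB, ← map_pow, ← map_mul, single_pow,
      single_mul_single, one_pow, one_mul]
    congr 2
    ext <;> simp
  have h2 := hP' _ hW1 hW3 hηW (res inf_le_left Y)
  rw [gam_res, hY, hΦ0', monoOp_single, if_pos] at h2
  swap
  · refine ⟨dvd_zero _, by push_cast; exact dvd_rfl, ?_⟩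
    push_cast
    intro hdvd
    have := Int.le_of_dvd hprz hdvd
    rw [pow_succ] at this
    nlinarith
  -- first term
  have h3 : gam _ hηW (a₁.1
      ⟨UU k p (vtx p true true) ⊓ UU k p (vtx p false true), hW1⟩
        (res inf_le_left Y)) =
      gam _ (generic_mem k p (vtx p true true))
        (a₁.1
          ⟨UU k p (vtx p true true), UU_le_VV _ _⟩ Y) := by
    have h4 := a₁.2.1
      ⟨UU k p (vtx p true true), UU_le_VV _ _⟩
      ⟨UU k p (vtx p true true) ⊓ UU k p (vtx p false true), hW1⟩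
      inf_le_left Y
    rw [← h4, gam_res]
  have h5 : gam _ hηW (a₃.1
      ⟨UU k p (vtx p true true) ⊓ UU k p (vtx p false true), hW3⟩
        (res inf_le_left Y)) =
      (gam _ (generic_mem k p (vtx p false true)) A) ^ (p ^ (r + 1)) *
      gam _ (generic_mem k p (vtx p false true))
        (a₃.1
          ⟨UU k p (vtx p false true), UU_le_VV _ _⟩ B) := by
    have h4 := a₃.2.1
      ⟨UU k p (vtx p false true), UU_le_VV _ _⟩
      ⟨UU k p (vtx p true true) ⊓ UU k p (vtx p false true), hW3⟩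
      inf_le_right B
    rw [hres, a₃.2.2, ← h4, map_mul, map_pow,
      gam_res, gam_res]
  have h6 : iota k p (single ((0 : ℤ) + -1, (p : ℤ) ^ r + -1) (1 : k)) =
      gam _ (generic_mem k p (vtx p true true))
        (a₁.1
          ⟨UU k p (vtx p true true), UU_le_VV _ _⟩ Y) +
      (gam _ (generic_mem k p (vtx p false true)) A) ^ (p ^ (r + 1)) *
      gam _ (generic_mem k p (vtx p false true))
        (a₃.1
          ⟨UU k p (vtx p false true), UU_le_VV _ _⟩ B) := by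
    rw [← h3, ← h5]
    exact h2
  obtain ⟨l₁, hl₁, hl₁'⟩ := gam_chart true true
    (a₁.1
      ⟨UU k p (vtx p true true), UU_le_VV _ _⟩ Y)
  obtain ⟨l₃, hl₃, hl₃'⟩ := gam_chart false true
    (a₃.1
      ⟨UU k p (vtx p false true), UU_le_VV _ _⟩ B)
  rw [hl₁', hl₃', hA, ← map_pow, ← map_mul, ← map_add, single_pow, one_pow] at h6
  have h7 := congrArg (fun l : Lau k => l.coeff ((0 : ℤ) + -1, (p : ℤ) ^ r + -1))
    (iota_injective h6)
  simp only [coeff_single, coeff_add, Finsupp.add_apply, Finsupp.single_eq_same] at h7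
  rw [mul_comm, coeff_mul_single] at h7
  have h8 : l₁.coeff ((0 : ℤ) + -1, (p : ℤ) ^ r + -1) = 0 := by
    by_contra h
    have := (hl₁ _ h).1
    simp at this
  have h9 : l₃.coeff (((0 : ℤ) + -1, (p : ℤ) ^ r + -1) -
      (p ^ (r + 1)) • ((-1 : ℤ), (0 : ℤ))) = 0 := by
    by_contra h
    have := (hl₃ _ h).1
    simp at this
    rw [pow_succ] at this
    nlinarith
  rw [h8, h9, add_zero] at h7
  exact one_ne_zero h7

theorem not_injective (r e' : ℕ) (he' : r + 1 < e') :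
    ¬ Function.Injective (Sheaf.H.map (Stmt.diffOpIncl (XX k p) p he'.le) 1) := by
  have hp0 : 0 < p := hp.out.pos
  have hq' : 0 < p ^ e' := pow_pos hp0 _
  have hq : 0 < p ^ (r + 1) := pow_pos hp0 _
  -- the operators on Laurent polynomials
  have hs1 : IsSemi (p ^ e') (p ^ e') (monoOp k (Q1 p r) (-1, -1)) :=
    monoOp_isSemi p e' (Q1 p r) _ (Q1_periodic p r e' he')
  have hs3 : IsSemi (p ^ e') (p ^ e') (monoOp k (Q3 p r) (-1, -1)) :=
    monoOp_isSemi p e' (Q3 p r) _ (Q3_periodic p r e' he')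
  have hs0 : IsSemi (p ^ (r + 1)) (p ^ (r + 1)) (monoOp k (Q0 p r) (-1, -1)) :=
    monoOp_isSemi p (r + 1) (Q0 p r) _ (Q0_periodic p r (r + 1) le_rfl)
  have hadd : monoOp k (Q1 p r) (-1, -1) + monoOp k (Q3 p r) (-1, -1) =
      monoOp k (Q0 p r) (-1, -1) := by
    apply monoOp_add
    · intro u
      unfold Q1 Q3
      tauto
    · intro u h
      exact h.1.2 h.2.2
  -- extensions to the function field
  obtain ⟨Φ1, hΦ1, hΦ1'⟩ := exists_extL (p := p) hq' _ hs1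
  obtain ⟨Φ3, hΦ3, hΦ3'⟩ := exists_extL (p := p) hq' _ hs3
  obtain ⟨Φ0, hΦ0, hΦ0'⟩ := exists_extL (p := p) hq _ hs0
  have hΦ : Φ1 + Φ3 = Φ0 := by
    refine ext_uniqueL hq' _ _ ?_ (isSemi_pow p he'.le Φ0 hΦ0) ?_
    · intro a b
      rw [AddMonoidHom.add_apply, AddMonoidHom.add_apply, hΦ1, hΦ3, mul_add]
    · intro l
      rw [AddMonoidHom.add_apply, hΦ1', hΦ3', hΦ0', ← map_add, ← hadd]
      rfl
  have hΦapp : ∀ z, Φ1 z + Φ3 z = Φ0 z := fun z => by rw [← hΦ]; rfl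
  -- sections
  obtain ⟨ψ1, hψ1, hψ1r, hψ1l⟩ := exists_secs hq' (monoOp k (Q1 p r) (-1, -1))
    (fun t : Bool => (true, t)) (fun t l hl => monoOp_mem _ _ _ (Q1_mem p r t) l hl)
    (VV k p true) le_rfl Φ1 hΦ1 hΦ1'
  obtain ⟨ψ3, hψ3, hψ3r, hψ3l⟩ := exists_secs hq' (monoOp k (Q3 p r) (-1, -1))
    (fun t : Bool => (false, t)) (fun t l hl => monoOp_mem _ _ _ (Q3_mem p r t) l hl)
    (VV k p false) le_rfl Φ3 hΦ3 hΦ3'
  let P1 : Stmt.PowEnd (p ^ e') (VV k p true) := ⟨ψ1, hψ1r, hψ1l⟩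
  let P3 : Stmt.PowEnd (p ^ e') (VV k p false) := ⟨ψ3, hψ3r, hψ3l⟩
  let ψ0 : ∀ W : {W : (XX k p).Opens // W ≤ VV k p true ⊓ VV k p false},
      Γ(XX k p, W.1) →+ Γ(XX k p, W.1) := fun W =>
    ψ1 ⟨W.1, W.2.trans inf_le_left⟩ + ψ3 ⟨W.1, W.2.trans inf_le_right⟩
  have hψ0 : ∀ (W : {W : (XX k p).Opens // W ≤ VV k p true ⊓ VV k p false})
      (h : genericPoint (XX k p) ∈ W.1) (s : Γ(XX k p, W.1)),
      gam W.1 h (ψ0 W s) = Φ0 (gam W.1 h s) := by
    intro W h s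
    have h1 : ψ0 W s = ψ1 ⟨W.1, W.2.trans inf_le_left⟩ s + ψ3 ⟨W.1, W.2.trans inf_le_right⟩ s := rfl
    rw [h1, map_add, ← hΦapp]
    exact congrArg₂ (· + ·) (hψ1 ⟨W.1, W.2.trans inf_le_left⟩ h s)
      (hψ3 ⟨W.1, W.2.trans inf_le_right⟩ h s)
  have h0a : ∀ (W W' : {W : (XX k p).Opens // W ≤ VV k p true ⊓ VV k p false}) (h : W'.1 ≤ W.1)
      (s : Γ(XX k p, W.1)), res h (ψ0 W s) = ψ0 W' (res h s) := by
    intro W W' h s
    apply eq_of_gam
    intro h'
    rw [gam_res, hψ0, hψ0, gam_res]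
  have h0b : ∀ (W : {W : (XX k p).Opens // W ≤ VV k p true ⊓ VV k p false}) (a s : Γ(XX k p, W.1)),
      ψ0 W (a ^ p ^ (r + 1) * s) = a ^ p ^ (r + 1) * ψ0 W s := by
    intro W a s
    apply eq_of_gam
    intro h'
    have h2 : gam W.1 h' (a ^ p ^ (r + 1) * ψ0 W s) =
      gam W.1 h' a ^ p ^ (r + 1) * gam W.1 h' (ψ0 W s) := by rw [map_mul, map_pow]
    rw [h2, hψ0, hψ0, map_mul, map_pow]
    exact hΦ0 _ _
  let P0 : Stmt.PowEnd (p ^ (r + 1)) (VV k p true ⊓ VV k p false) := ⟨ψ0, h0a, h0b⟩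
  refine not_injective_H1 (Stmt.diffOpIncl (XX k p) p he'.le) (VV k p true) (VV k p false) VV_sup
    P1 P3 P0 rfl ?_
  -- the class is not zero
  intro (a₁ : Stmt.PowEnd (p ^ (r + 1)) (VV k p true)) (a₃ : Stmt.PowEnd (p ^ (r + 1)) (VV k p false))
    hP
  let b₁ : PowLinEnd (XX k p) (p ^ (r + 1)) (VV k p true) := ⟨a₁.fam, a₁.prop⟩
  let b₃ : PowLinEnd (XX k p) (p ^ (r + 1)) (VV k p false) := ⟨a₃.fam, a₃.prop⟩
  have hP' : ∀ (W : {W : (XX k p).Opens // W ≤ VV k p true ⊓ VV k p false}) (s : Γ(XX k p, W.1)),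
      ψ0 W s = b₁.1 ⟨W.1, W.2.trans inf_le_left⟩ s + b₃.1 ⟨W.1, W.2.trans inf_le_right⟩ s := by
    intro W s
    have h1 := congrArg (fun x : Stmt.PowEnd (p ^ (r + 1)) (VV k p true ⊓ VV k p false) =>
      (x.fam W).ap s) hP
    exact h1
  refine contra r b₁ b₃ Φ0 hΦ0' ?_
  intro W h1 h3 h s
  have h4 := hP' ⟨W, le_inf h1 h3⟩ s
  rw [← map_add, ← hψ0 ⟨W, le_inf h1 h3⟩ h s]
  exact congrArg (gam W h) h4

end Pool.Agent.H835R3
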