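import Pool.Agent.H835R3.Fld
import Pool.Agent.H835R3.Stmt

/-!
The Hirzebruch surface is globally F-split.
-/

set_option autoImplicit false

namespace Pool.Agent.H835R3

open AddMonoidAlgebra AlgebraicGeometry HomogeneousLocalization CategoryTheory TopologicalSpace
  Opposite

variable {k : Type} [Field k] {p : ℕ} [hp : Fact p.Prime] [CharP k p] [PerfectRing k p]

theorem globallyFSplit_XX : Stmt.GloballyFSplit (XX k p) p := by
  have hp0 : 0 < p := hp.out.pos
  have hq : 0 < p ^ 1 := by rw [pow_one]; exact hp0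
  obtain ⟨Φ, hΦ, hΦ'⟩ := exists_extL (p := p) hq (fsOp k p) (fsOp_isSemi p)
  have hcov : (⊤ : (XX k p).Opens) ≤ ⨆ i : Bool × Bool, UU k p (vtx p i.1 i.2) := by
    intro x _
    obtain ⟨s, t, hx⟩ := exists_mem_UU k p x
    exact Opens.mem_iSup.2 ⟨(s, t), hx⟩
  obtain ⟨ψ, hψ, hψr, hψl⟩ := exists_secs hq (fsOp k p) (fun i : Bool × Bool => i)
    (fun i l hl => fsOp_mem p i.1 i.2 l hl) ⊤ hcov Φ hΦ hΦ'
  refine ⟨fun V => ψ ⟨V, le_top⟩, fun V W h s => hψr ⟨V, le_top⟩ ⟨W, le_top⟩ h s,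
    fun V a s => ?_, fun V => ?_⟩
  · have := hψl ⟨V, le_top⟩ a s
    rw [pow_one, pow_zero, pow_one] at this
    exact this
  · apply eq_of_gam
    intro h
    have h1 := hψ ⟨V, le_top⟩ h 1
    have h2 : Φ 1 = 1 := by
      have := hΦ' 1
      rw [fsOp_one, map_one] at this
      exact this
    have h3 : Φ (gam V h 1) = gam V h 1 := by rw [map_one, h2]
    exact h1.trans h3

end Pool.Agent.H835R3
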