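import Pool.Agent.H835R3.Surf
import Pool.Agent.H835R3.Stmt
import Pool.Agent.H952R2.UlrichD5
import Pool.Agent.H992R2.U.D4b

/-!
The Hirzebruch surface `F_p` is projective.
-/

set_option autoImplicit false

namespace Pool.Agent.H835R3

open AddMonoidAlgebra AlgebraicGeometry HomogeneousLocalization CategoryTheory TopologicalSpace
  MvPolynomial

attribute [local instance] MvPolynomial.gradedAlgebra

/-- the monomials of degree one -/
def gens (p : ℕ) (n : Fin (p + 3 + 1)) : Mon p :=
  if n.1 = 0 then vtx p true true else if n.1 = 1 then vtx p false true else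
    ⟨(n.1 - 2, 1, 1), by
      have := n.2
      refine ⟨le_rfl, ?_⟩
      simp only
      omega⟩

lemma degM_gens (p : ℕ) (n : Fin (p + 3 + 1)) : degM p (gens p n) = 1 := by
  unfold gens
  split_ifs <;> rfl

lemma exists_gens (p : ℕ) (g : Mon p) (hg : degM p g = 1) : ∃ n, gens p n = g := by
  rcases degree_one_cases p g hg with rfl | rfl | ⟨i, hi, hgi⟩
  · exact ⟨⟨0, by omega⟩, by simp [gens]⟩
  · exact ⟨⟨1, by omega⟩, by simp [gens]⟩
  · refine ⟨⟨i + 2, by omega⟩, ?_⟩
    apply Subtype.ext
    rw [hgi]
    simp [gens]

variable (k : Type) [Field k] (p : ℕ)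

/-- the presentation of the ring `S` -/
noncomputable def phiA : MvPolynomial (Fin (p + 3 + 1)) k →ₐ[k] SS k p :=
  MvPolynomial.aeval (fun n => mo k p (gens p n))

lemma phiA_mem (d : ℕ) (f : MvPolynomial (Fin (p + 3 + 1)) k)
    (hf : f ∈ homogeneousSubmodule (Fin (p + 3 + 1)) k d) : phiA k p f ∈ AA k p d := by
  unfold phiA
  rw [MvPolynomial.aeval_def, MvPolynomial.eval₂_eq']
  refine Submodule.sum_mem _ ?_
  intro m hm
  rw [← Algebra.smul_def]
  refine Submodule.smul_mem _ _ ?_
  have h1 : ∏ i, mo k p (gens p i) ^ m i ∈ AA k p (∑ i, m i • 1) := by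
    refine SetLike.prod_pow_mem_graded (AA k p) _ _ _ ?_
    intro i _
    have := mo_mem (k := k) (gens p i)
    rwa [degM_gens] at this
  have h2 : ∑ i, m i • 1 = d := by
    have h3 := hf (MvPolynomial.mem_support_iff.1 hm)
    rw [← h3]
    simp [Finsupp.weight_apply, Finsupp.sum_fintype]
  rwa [h2] at h1

lemma phiA_surjective : Function.Surjective (phiA k p) := by
  have h1 : ∀ (d : ℕ) (u : Mon p), degM p u = d → mo k p u ∈ (phiA k p).range := by
    intro d
    induction d with
    | zero =>
      intro u hu
      have h0 : u = 0 := by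
        obtain ⟨⟨i, j, d⟩, h1, h2⟩ := u
        simp only at h1 h2
        have hd : d = 0 := hu
        subst hd
        have hj : j = 0 := by omega
        subst hj
        have hi : i = 0 := by simpa using h2
        subst hi
        rfl
      subst h0
      exact one_mem _
    | succ d ih =>
      intro u hu
      obtain ⟨g, u', hg, rfl⟩ := exists_split p u (by omega)
      rw [mo_add]
      refine mul_mem ?_ (ih u' ?_)
      · obtain ⟨n, rfl⟩ := exists_gens p g hg
        exact ⟨MvPolynomial.X n, by
          show phiA k p (MvPolynomial.X n) = _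
          unfold phiA
          rw [MvPolynomial.aeval_X]⟩
      · rw [map_add, hg] at hu
        omega
  intro x
  have h3 : x = x.coeff.sum (fun u a => (single u a : SS k p)) := (sum_coeff_single x).symm
  have h4 : x.coeff.sum (fun u a => (single u a : SS k p)) ∈ (phiA k p).range := by
    refine Subalgebra.sum_mem _ ?_
    intro u _
    have h5 : (single u (x.coeff u) : SS k p) = (x.coeff u) • mo k p u := by
      rw [smul_single, smul_eq_mul, mul_one]
    show (single u (x.coeff u) : SS k p) ∈ _
    rw [h5]
    exact Subalgebra.smul_mem _ (h1 _ u rfl) _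
  rw [← h3] at h4
  exact h4

/-- the presentation, as a graded ring homomorphism -/
noncomputable def phiG : homogeneousSubmodule (Fin (p + 3 + 1)) k →+*ᵍ AA k p :=
  { (phiA k p).toRingHom with
    map_mem := fun {i x} hx => phiA_mem k p i x hx }

theorem projective_XX : Stmt.IsProjectiveOver (Stmt.toSpecK (AA k p)) := by
  have hsurj : Function.Surjective (phiG k p) := phiA_surjective k p
  refine ⟨p + 3, Proj.map (phiG k p) (H952UL.D5h (phiG k p) hsurj), ?_, ?_⟩
  · exact H952UL.D2a (phiG k p) hsurj
  · exact H944U.H992.D2b (phiG k p) (H952UL.D5h (phiG k p) hsurj)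
      (fun c => (phiA k p).commutes c)

end Pool.Agent.H835R3
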