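import Pool.Agent.H835R3.Frac

/-!
Monomial operators on the Laurent polynomial ring `k[x^{±1}, y^{±1}]`.
-/

set_option autoImplicit false

namespace Pool.Agent.H835R3

open AddMonoidAlgebra

/-- Laurent polynomials in two variables -/
abbrev Lau (k : Type) [Field k] : Type := AddMonoidAlgebra k (ℤ × ℤ)

variable {k : Type} [Field k]

/-- additive operator with given values on monomials -/
noncomputable def opHom (h : ℤ × ℤ → k →+ Lau k) : Lau k →+ Lau k :=
  (Finsupp.liftAddHom h).comp (AddMonoidAlgebra.coeffAddEquiv (R := k) (M := ℤ × ℤ)).toAddMonoidHom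

lemma opHom_eq (h : ℤ × ℤ → k →+ Lau k) (l : Lau k) :
    opHom h l = l.coeff.sum (fun u a => h u a) := rfl

lemma opHom_single (h : ℤ × ℤ → k →+ Lau k) (u : ℤ × ℤ) (a : k) :
    opHom h (single u a) = h u a := by
  rw [opHom_eq, coeff_single, Finsupp.sum_single_index (by simp)]

section semi

variable (p : ℕ) [Fact p.Prime] [CharP k p]

lemma isSemi_of_single (e e' : ℕ) (Φ : Lau k →+ Lau k)
    (h : ∀ (w u : ℤ × ℤ) (a b : k),
      Φ (single w a ^ (p ^ e) * single u b) = single w a ^ (p ^ e') * Φ (single u b)) :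
    IsSemi (p ^ e) (p ^ e') Φ := by
  have : ExpChar (Lau k) p := expChar_of_injective_algebraMap
    (FaithfulSMul.algebraMap_injective k (Lau k)) p
  intro a b
  induction a using AddMonoidAlgebra.induction_linear with
  | zero => simp [(Fact.out : p.Prime).ne_zero]
  | add a₁ a₂ h1 h2 =>
    rw [add_pow_expChar_pow, add_pow_expChar_pow, add_mul, add_mul, map_add, h1, h2]
  | single w a =>
    induction b using AddMonoidAlgebra.induction_linear with
    | zero => simp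
    | add b₁ b₂ h1 h2 => rw [mul_add, map_add, map_add, mul_add, h1, h2]
    | single u b => exact h w u a b

end semi

/-- elements with support in `C` -/
def coneSub (k : Type) [Field k] (C : Set (ℤ × ℤ)) : AddSubgroup (Lau k) where
  carrier := {l | ∀ u, l.coeff u ≠ 0 → u ∈ C}
  zero_mem' := by intro u hu; simp at hu
  add_mem' := by
    intro a b ha hb u hu
    by_cases h : a.coeff u = 0
    · apply hb
      intro h'
      apply hu
      simp [h, h']
    · exact ha u h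
  neg_mem' := by
    intro a ha u hu
    apply ha
    intro h
    apply hu
    simp [h]

lemma mem_coneSub {C : Set (ℤ × ℤ)} {l : Lau k} :
    l ∈ coneSub k C ↔ ∀ u, l.coeff u ≠ 0 → u ∈ C := Iff.rfl

lemma single_mem_coneSub {C : Set (ℤ × ℤ)} {u : ℤ × ℤ} (hu : u ∈ C) (a : k) :
    (single u a : Lau k) ∈ coneSub k C := by
  intro v hv
  rw [coeff_single, Finsupp.single_apply] at hv
  split_ifs at hv with h
  · exact h ▸ hu
  · exact absurd rfl hv

lemma opHom_mem_coneSub {C : Set (ℤ × ℤ)} (h : ℤ × ℤ → k →+ Lau k)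
    (hC : ∀ u ∈ C, ∀ a, h u a ∈ coneSub k C) (l : Lau k) (hl : l ∈ coneSub k C) :
    opHom h l ∈ coneSub k C := by
  rw [opHom_eq]
  refine AddSubgroup.sum_mem _ ?_
  intro u hu
  exact hC u (hl u (Finsupp.mem_support_iff.1 hu)) _

/-- the operator `x^u ↦ x^(u+m)` if `Q u`, and `0` otherwise -/
noncomputable def monoOp (k : Type) [Field k] (Q : ℤ × ℤ → Prop) [DecidablePred Q] (m : ℤ × ℤ) :
    Lau k →+ Lau k :=
  opHom (fun u => if Q u then singleAddHom (u + m) else 0)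

lemma monoOp_single (Q : ℤ × ℤ → Prop) [DecidablePred Q] (m u : ℤ × ℤ) (a : k) :
    monoOp k Q m (single u a) = if Q u then single (u + m) a else 0 := by
  unfold monoOp
  rw [opHom_single]
  split_ifs <;> rfl

lemma monoOp_isSemi (p : ℕ) [Fact p.Prime] [CharP k p] (n : ℕ) (Q : ℤ × ℤ → Prop)
    [DecidablePred Q] (m : ℤ × ℤ)
    (hQ : ∀ w u : ℤ × ℤ, Q ((p ^ n : ℕ) • w + u) ↔ Q u) :
    IsSemi (p ^ n) (p ^ n) (monoOp k Q m) := by
  apply isSemi_of_single p n n
  intro w u a b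
  rw [single_pow, single_mul_single, monoOp_single, monoOp_single, if_congr (hQ w u) rfl rfl]
  split_ifs with h
  · rw [single_mul_single, add_assoc]
  · rw [mul_zero]

lemma monoOp_mem (C : Set (ℤ × ℤ)) (Q : ℤ × ℤ → Prop) [DecidablePred Q] (m : ℤ × ℤ)
    (h : ∀ u ∈ C, Q u → u + m ∈ C) (l : Lau k) (hl : l ∈ coneSub k C) :
    monoOp k Q m l ∈ coneSub k C := by
  apply opHom_mem_coneSub _ _ _ hl
  intro u hu a
  split_ifs with hQ
  · exact single_mem_coneSub (h u hu hQ) a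
  · exact zero_mem _

lemma monoOp_add (Q Q₁ Q₃ : ℤ × ℤ → Prop) [DecidablePred Q] [DecidablePred Q₁] [DecidablePred Q₃]
    (m : ℤ × ℤ) (h : ∀ u, Q u ↔ (Q₁ u ∨ Q₃ u)) (h' : ∀ u, ¬ (Q₁ u ∧ Q₃ u)) :
    monoOp k Q₁ m + monoOp k Q₃ m = monoOp k Q m := by
  apply AddMonoidAlgebra.addMonoidHom_ext
  intro u a
  rw [AddMonoidHom.add_apply, monoOp_single, monoOp_single, monoOp_single]
  have h1 := h u
  have h2 := h' u
  by_cases h3 : Q₁ u
  · have h4 : ¬ Q₃ u := fun h5 => h2 ⟨h3, h5⟩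
    rw [if_pos h3, if_neg h4, if_pos (h1.2 (Or.inl h3)), add_zero]
  · by_cases h4 : Q₃ u
    · rw [if_neg h3, if_pos h4, if_pos (h1.2 (Or.inr h4)), zero_add]
    · rw [if_neg h3, if_neg h4, if_neg (fun h5 => (h1.1 h5).elim h3 h4), zero_add]

/-- the cones of the fan: `s = true` is the half plane `0 ≤ a`, `s = false` is `0 ≤ p b - a`;
`t = true` is `0 ≤ b`, `t = false` is `b ≤ 0` -/
def cone (p : ℕ) (s t : Bool) : Set (ℤ × ℤ) :=
  {w | (0 ≤ if s then w.1 else (p : ℤ) * w.2 - w.1) ∧ (0 ≤ if t then w.2 else -w.2)}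

section ops

variable (p r : ℕ)

/-- exponents `(a, b)` with `p^(r+1) ∣ a`, `p^r ∣ b`, `p^(r+1) ∤ b` -/
def Q0 (u : ℤ × ℤ) : Prop :=
  ((p ^ (r + 1) : ℕ) : ℤ) ∣ u.1 ∧ ((p ^ r : ℕ) : ℤ) ∣ u.2 ∧ ¬ ((p ^ (r + 1) : ℕ) : ℤ) ∣ u.2

/-- the part with `p^(r+2) ∤ a` -/
def Q1 (u : ℤ × ℤ) : Prop := Q0 p r u ∧ ¬ ((p ^ (r + 2) : ℕ) : ℤ) ∣ u.1

/-- the part with `p^(r+2) ∣ a` -/
def Q3 (u : ℤ × ℤ) : Prop := Q0 p r u ∧ ((p ^ (r + 2) : ℕ) : ℤ) ∣ u.1

instance : DecidablePred (Q0 p r) := fun u => by unfold Q0; infer_instance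
instance : DecidablePred (Q1 p r) := fun u => by unfold Q1; infer_instance
instance : DecidablePred (Q3 p r) := fun u => by unfold Q3; infer_instance

lemma dvd_shift (n m : ℕ) (h : m ≤ n) (w u : ℤ) :
    ((p ^ m : ℕ) : ℤ) ∣ (p ^ n : ℕ) • w + u ↔ ((p ^ m : ℕ) : ℤ) ∣ u := by
  have h1 : ((p ^ m : ℕ) : ℤ) ∣ (p ^ n : ℕ) • w := by
    rw [nsmul_eq_mul]
    exact Dvd.dvd.mul_right (by exact_mod_cast pow_dvd_pow p h) w
  exact (Int.dvd_add_right h1)

lemma Q0_periodic (n : ℕ) (hn : r + 1 ≤ n) (w u : ℤ × ℤ) :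
    Q0 p r ((p ^ n : ℕ) • w + u) ↔ Q0 p r u := by
  unfold Q0
  simp only [Prod.fst_add, Prod.smul_fst, Prod.snd_add, Prod.smul_snd]
  rw [dvd_shift p n (r + 1) hn, dvd_shift p n r (by omega), dvd_shift p n (r + 1) hn]

lemma Q1_periodic (n : ℕ) (hn : r + 2 ≤ n) (w u : ℤ × ℤ) :
    Q1 p r ((p ^ n : ℕ) • w + u) ↔ Q1 p r u := by
  unfold Q1
  rw [Q0_periodic p r n (by omega)]
  simp only [Prod.fst_add, Prod.smul_fst]
  rw [dvd_shift p n (r + 2) hn]

lemma Q3_periodic (n : ℕ) (hn : r + 2 ≤ n) (w u : ℤ × ℤ) :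
    Q3 p r ((p ^ n : ℕ) • w + u) ↔ Q3 p r u := by
  unfold Q3
  rw [Q0_periodic p r n (by omega)]
  simp only [Prod.fst_add, Prod.smul_fst]
  rw [dvd_shift p n (r + 2) hn]

lemma Q0_snd_ne (u : ℤ × ℤ) (h : Q0 p r u) : u.2 ≠ 0 := by
  rintro h0
  apply h.2.2
  rw [h0]
  exact dvd_zero _

variable [hp : Fact p.Prime]

omit hp in
lemma Q1_mem (t : Bool) (u : ℤ × ℤ) (hu : u ∈ cone p true t) (h : Q1 p r u) :
    u + (-1, -1) ∈ cone p true t := by
  have h1 : u.1 ≠ 0 := by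
    intro h0
    apply h.2
    rw [h0]
    exact dvd_zero _
  have h2 := Q0_snd_ne p r u h.1
  obtain ⟨h3, h4⟩ := hu
  simp only [if_true] at h3
  refine ⟨?_, ?_⟩
  · simp only [if_true, Prod.fst_add]
    omega
  · cases t
    · simp only [Bool.false_eq_true, if_false, Prod.snd_add] at h4 ⊢
      omega
    · simp only [if_true, Prod.snd_add] at h4 ⊢
      omega

lemma Q3_mem (t : Bool) (u : ℤ × ℤ) (hu : u ∈ cone p false t) (h : Q3 p r u) :
    u + (-1, -1) ∈ cone p false t := by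
  have h2 := Q0_snd_ne p r u h.1
  obtain ⟨h3, h4⟩ := hu
  simp only [Bool.false_eq_true, if_false] at h3
  have hp1 : 1 ≤ p := hp.out.one_lt.le
  have hppos : (0 : ℤ) < p := by exact_mod_cast hp.out.pos
  have hc : ((p ^ (r + 1) : ℕ) : ℤ) ∣ (p : ℤ) * u.2 - u.1 := by
    apply dvd_sub
    · have : ((p ^ (r + 1) : ℕ) : ℤ) = (p : ℤ) * ((p ^ r : ℕ) : ℤ) := by
        push_cast
        ring
      rw [this]
      exact mul_dvd_mul_left _ h.1.2.1
    · exact h.1.1
  have hne : (p : ℤ) * u.2 - u.1 ≠ 0 := by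
    intro h0
    have h5 : u.1 = (p : ℤ) * u.2 := by linarith
    have h6 := h.2
    rw [h5] at h6
    have h7 : ((p ^ (r + 2) : ℕ) : ℤ) = (p : ℤ) * ((p ^ (r + 1) : ℕ) : ℤ) := by
      push_cast
      ring
    rw [h7] at h6
    exact h.1.2.2 ((mul_dvd_mul_iff_left hppos.ne').1 h6)
  have hle : ((p ^ (r + 1) : ℕ) : ℤ) ≤ (p : ℤ) * u.2 - u.1 :=
    Int.le_of_dvd (lt_of_le_of_ne h3 (Ne.symm hne)) hc
  have hle2 : (p : ℤ) ≤ ((p ^ (r + 1) : ℕ) : ℤ) := by
    exact_mod_cast Nat.le_self_pow (by omega) p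
  refine ⟨?_, ?_⟩
  · simp only [Bool.false_eq_true, if_false, Prod.fst_add, Prod.snd_add]
    have : (p : ℤ) * (u.2 + -1) - (u.1 + -1) = ((p : ℤ) * u.2 - u.1) - p + 1 := by ring
    rw [this]
    linarith
  · cases t
    · simp only [Bool.false_eq_true, if_false, Prod.snd_add] at h4 ⊢
      omega
    · simp only [if_true, Prod.snd_add] at h4 ⊢
      omega

end ops

section fs

variable (p : ℕ) [hp : Fact p.Prime] [CharP k p] [PerfectRing k p]

/-- the Frobenius splitting of the Laurent polynomial ring -/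
noncomputable def fsOp (k : Type) [Field k] (p : ℕ) [Fact p.Prime] [CharP k p] [PerfectRing k p] :
    Lau k →+ Lau k :=
  opHom (fun u => if (p : ℤ) ∣ u.1 ∧ (p : ℤ) ∣ u.2 then
    (singleAddHom (u.1 / p, u.2 / p)).comp ((frobeniusEquiv k p).symm : k ≃+ k).toAddMonoidHom
    else 0)

lemma fsOp_single (u : ℤ × ℤ) (a : k) :
    fsOp k p (single u a) = if (p : ℤ) ∣ u.1 ∧ (p : ℤ) ∣ u.2 then
      single (u.1 / p, u.2 / p) ((frobeniusEquiv k p).symm a) else 0 := by
  unfold fsOp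
  rw [opHom_single]
  split_ifs <;> rfl

lemma fsOp_isSemi : IsSemi (p ^ 1) (p ^ 0) (fsOp k p) := by
  apply isSemi_of_single p 1 0
  intro w u a b
  rw [single_pow, single_mul_single, fsOp_single, fsOp_single]
  have hppos : (0 : ℤ) < p := by exact_mod_cast hp.out.pos
  have h1 : ((p : ℤ) ∣ ((p ^ 1) • w + u).1 ∧ (p : ℤ) ∣ ((p ^ 1) • w + u).2) ↔
      ((p : ℤ) ∣ u.1 ∧ (p : ℤ) ∣ u.2) := by
    have := dvd_shift p 1 1 le_rfl w.1 u.1
    have h' := dvd_shift p 1 1 le_rfl w.2 u.2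
    simp only [pow_one] at this h' ⊢
    exact and_congr this h'
  rw [if_congr h1 rfl rfl]
  split_ifs with h
  · rw [pow_zero, pow_one (single w a), single_mul_single]
    have e1 : (((p ^ 1) • w + u).1 / (p : ℤ), ((p ^ 1) • w + u).2 / (p : ℤ)) =
        w + (u.1 / (p : ℤ), u.2 / (p : ℤ)) := by
      ext
      · simp only [pow_one, Prod.fst_add, Prod.smul_fst]
        rw [nsmul_eq_mul, Int.add_ediv_of_dvd_left (Dvd.intro _ rfl), Int.mul_ediv_cancel_left _ hppos.ne']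
      · simp only [pow_one, Prod.snd_add, Prod.smul_snd]
        rw [nsmul_eq_mul, Int.add_ediv_of_dvd_left (Dvd.intro _ rfl), Int.mul_ediv_cancel_left _ hppos.ne']
    simp only [pow_one] at e1 ⊢
    rw [e1, map_mul]
    congr 2
    exact (frobeniusEquiv k p).symm_apply_apply a
  · rw [mul_zero]

lemma fsOp_mem (s t : Bool) (l : Lau k) (hl : l ∈ coneSub k (cone p s t)) :
    fsOp k p l ∈ coneSub k (cone p s t) := by
  apply opHom_mem_coneSub _ _ _ hl
  intro u hu a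
  have hppos : (0 : ℤ) < p := by exact_mod_cast hp.out.pos
  split_ifs with hQ
  · refine single_mem_coneSub ?_ _
    obtain ⟨⟨c, hc⟩, ⟨d, hd⟩⟩ := hQ
    obtain ⟨h1, h2⟩ := hu
    have e1 : u.1 / (p : ℤ) = c := by rw [hc]; exact Int.mul_ediv_cancel_left _ hppos.ne'
    have e2 : u.2 / (p : ℤ) = d := by rw [hd]; exact Int.mul_ediv_cancel_left _ hppos.ne'
    rw [e1, e2]
    refine ⟨?_, ?_⟩
    · cases s
      · simp only [Bool.false_eq_true, if_false] at h1 ⊢
        rw [hc, hd] at h1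
        have : (0 : ℤ) ≤ p * (p * d - c) := by linarith
        exact nonneg_of_mul_nonneg_right this hppos
      · simp only [if_true] at h1 ⊢
        rw [hc] at h1
        exact nonneg_of_mul_nonneg_right h1 hppos
    · cases t
      · simp only [Bool.false_eq_true, if_false] at h2 ⊢
        rw [hd] at h2
        have : (0 : ℤ) ≤ p * (-d) := by linarith
        exact nonneg_of_mul_nonneg_right this hppos
      · simp only [if_true] at h2 ⊢
        rw [hd] at h2
        exact nonneg_of_mul_nonneg_right h2 hppos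
  · exact zero_mem _

lemma fsOp_one : fsOp k p 1 = 1 := by
  rw [AddMonoidAlgebra.one_def, fsOp_single]
  simp
  rfl

end fs

end Pool.Agent.H835R3
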