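import Pool.Agent.H835R3.Surf
import Pool.Agent.H835R3.Stmt
import Pool.Agent.H159R3.SM4
import Pool.Agent.Helper165.StdSmooth

/-!
The Hirzebruch surface `F_p` is smooth of relative dimension two: its charts are affine planes.
-/

set_option autoImplicit false

namespace Pool.Agent.H835R3

open AddMonoidAlgebra AlgebraicGeometry HomogeneousLocalization CategoryTheory TopologicalSpace

/-- first generator of the cone -/
def w1 (s : Bool) : ℤ × ℤ := if s then (1, 0) else (-1, 0)

/-- second generator of the cone -/
def w2 (p : ℕ) (s t : Bool) : ℤ × ℤ :=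
  if s then (if t then (0, 1) else (0, -1)) else (if t then (p, 1) else (-p, -1))

/-- parametrization of the cone -/
def gMap (p : ℕ) (s t : Bool) : (Fin 2 →₀ ℕ) →+ ℤ × ℤ where
  toFun m := m 0 • w1 s + m 1 • w2 p s t
  map_zero' := by simp
  map_add' m m' := by
    simp only [Finsupp.add_apply, add_smul]
    abel

lemma gMap_apply (p : ℕ) (s t : Bool) (m : Fin 2 →₀ ℕ) :
    gMap p s t m = m 0 • w1 s + m 1 • w2 p s t := rfl

lemma gMap_injective (p : ℕ) (s t : Bool) : Function.Injective (gMap p s t) := by
  intro m m' h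
  rw [gMap_apply, gMap_apply] at h
  have h1 := congrArg Prod.fst h
  have h2 := congrArg Prod.snd h
  cases s <;> cases t <;> simp [w1, w2] at h1 h2 <;>
    (ext i; fin_cases i <;> simp <;> first | exact h1 | exact h2 | (rw [h2] at h1; simpa using h1))

lemma gMap_mem (p : ℕ) (s t : Bool) (m : Fin 2 →₀ ℕ) : gMap p s t m ∈ cone p s t := by
  rw [gMap_apply]
  cases s <;> cases t <;> simp [cone, w1, w2] <;> nlinarith [Int.natCast_nonneg (m 0)]

lemma gMap_surj (p : ℕ) (s t : Bool) (w : ℤ × ℤ) (hw : w ∈ cone p s t) :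
    ∃ m, gMap p s t m = w := by
  obtain ⟨a, b⟩ := w
  obtain ⟨h1, h2⟩ := hw
  have key : ∀ i j : ℤ, 0 ≤ i → 0 ≤ j → i • w1 s + j • w2 p s t = (a, b) →
      ∃ m, gMap p s t m = (a, b) := by
    intro i j hi hj h
    lift i to ℕ using hi
    lift j to ℕ using hj
    refine ⟨Finsupp.single 0 i + Finsupp.single 1 j, ?_⟩
    rw [gMap_apply, ← h]
    simp
  cases s <;> cases t <;> simp only [Bool.false_eq_true, if_false, if_true] at h1 h2
  · refine key ((p : ℤ) * b - a) (-b) h1 h2 ?_
    ext <;> simp [w1, w2]
    ring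
  · refine key ((p : ℤ) * b - a) b h1 h2 ?_
    ext <;> simp [w1, w2]
    ring
  · refine key a (-b) h1 h2 ?_
    ext <;> simp [w1, w2]
  · refine key a b h1 h2 ?_
    ext <;> simp [w1, w2]

/-- two embeddings with the same range -/
lemma exists_equiv {A B C : Type} [CommRing A] [CommRing B] [CommRing C] (θ : B →+* C)
    (α : A →+* C) (hθ : Function.Injective θ) (hα : Function.Injective α)
    (h : ∀ c, (∃ b, θ b = c) ↔ ∃ a, α a = c) : ∃ e : B ≃+* A, ∀ b, α (e b) = θ b := by
  have h1 : ∀ b, ∃ a, α a = θ b := fun b => (h _).1 ⟨b, rfl⟩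
  choose f hf using h1
  have hadd : ∀ x y, f (x + y) = f x + f y := fun x y => hα (by
    rw [hf, map_add, map_add, hf, hf])
  have hmul : ∀ x y, f (x * y) = f x * f y := fun x y => hα (by
    rw [hf, map_mul, map_mul, hf, hf])
  have hone : f 1 = 1 := hα (by rw [hf, map_one, map_one])
  have hzero : f 0 = 0 := hα (by rw [hf, map_zero, map_zero])
  let F : B →+* A :=
  { toFun := f
    map_one' := hone
    map_mul' := hmul
    map_zero' := hzero
    map_add' := hadd }
  have hF : Function.Bijective F := by
    refine ⟨fun x y hxy => ?_, fun a => ?_⟩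
    · apply hθ
      rw [← hf x, ← hf y]
      exact congrArg α hxy
    · obtain ⟨b, hb⟩ := (h (α a)).2 ⟨a, rfl⟩
      exact ⟨b, hα ((hf b).trans hb)⟩
  exact ⟨RingEquiv.ofBijective F hF, hf⟩

variable {k : Type} [Field k] {p : ℕ}

/-- the embedding of the coordinate ring of the affine plane as the monomials in the cone -/
noncomputable def theta (k : Type) [Field k] (p : ℕ) (s t : Bool) :
    MvPolynomial (Fin 2) k →ₐ[k] Lau k :=
  AddMonoidAlgebra.mapDomainAlgHom k k (gMap p s t)

lemma theta_coeff (s t : Bool) (f : MvPolynomial (Fin 2) k) :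
    (theta k p s t f).coeff = Finsupp.mapDomain (gMap p s t) (AddMonoidAlgebra.coeff f) := rfl

lemma theta_single (s t : Bool) (m : Fin 2 →₀ ℕ) (c : k) :
    theta k p s t (AddMonoidAlgebra.single m c) = single (gMap p s t m) c :=
  AddMonoidAlgebra.mapDomain_single

lemma theta_injective (s t : Bool) : Function.Injective (theta k p s t) := by
  intro f g h
  apply AddMonoidAlgebra.ext
  apply Finsupp.mapDomain_injective (gMap_injective p s t)
  rw [← theta_coeff, ← theta_coeff, h]

lemma theta_range (s t : Bool) (l : Lau k) :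
    (∃ f, theta k p s t f = l) ↔ l ∈ coneSub k (cone p s t) := by
  constructor
  · rintro ⟨f, rfl⟩ w hw
    rw [theta_coeff] at hw
    classical
    have h1 := Finsupp.mapDomain_support (f := gMap p s t) (s := AddMonoidAlgebra.coeff f)
      (Finsupp.mem_support_iff.2 hw)
    rw [Finset.mem_image] at h1
    obtain ⟨m, -, rfl⟩ := h1
    exact gMap_mem p s t m
  · intro hl
    have h2 : l = l.coeff.sum (fun u a => (single u a : Lau k)) := (sum_coeff_single l).symm
    have h3 : l.coeff.sum (fun u a => (single u a : Lau k)) ∈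
        (theta k p s t).toRingHom.range.toAddSubgroup := by
      refine AddSubgroup.sum_mem _ ?_
      intro u hu
      obtain ⟨m, hm⟩ := gMap_surj p s t u (hl u (Finsupp.mem_support_iff.1 hu))
      exact ⟨AddMonoidAlgebra.single m (l.coeff u), by
        rw [← hm]
        exact theta_single s t m _⟩
    rw [← h2] at h3
    exact h3

lemma alpha_fromZero (v : Mon p) (c : k) :
    alpha k p v (fromZeroRingHom (AA k p) (Submonoid.powers (mo k p v))
      (algebraMap k (AA k p 0) c)) = algebraMap k (Lau k) c := by
  have hmem : (algebraMap k (SS k p) c) ∈ AA k p (0 • degM p v) := by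
    rw [zero_smul]
    exact (algebraMap k (AA k p 0) c).2
  have h1 : fromZeroRingHom (AA k p) (Submonoid.powers (mo k p v)) (algebraMap k (AA k p 0) c) =
      Away.mk (AA k p) (mo_mem v) 0 (algebraMap k (SS k p) c) hmem := by
    apply HomogeneousLocalization.val_injective
    rw [Away.val_mk]
    have : (fromZeroRingHom (AA k p) (Submonoid.powers (mo k p v))
      (algebraMap k (AA k p 0) c)).val = Localization.mk (algebraMap k (SS k p) c) 1 := rfl
    rw [this]
    have h0 : (1 : Submonoid.powers (mo k p v)) = ⟨mo k p v ^ 0, 0, rfl⟩ := by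
      apply Subtype.ext
      show (1 : SS k p) = mo k p v ^ 0
      rw [pow_zero]
    rw [h0]
  have h2 := alpha_mul v (mo_mem v) 0 (algebraMap k (SS k p) c) hmem
  rw [← h1, zero_smul] at h2
  have h3 : (single (0 : ℤ × ℤ) (1 : k) : Lau k) = 1 := rfl
  rw [h3, mul_one] at h2
  rw [h2]
  exact (PiS k p).commutes c

lemma smooth_plane : RingHom.Locally (RingHom.IsStandardSmoothOfRelativeDimension 2)
    (algebraMap k (MvPolynomial (Fin 2) k)) := by
  refine RingHom.locally_of RingHom.isStandardSmoothOfRelativeDimension_respectsIso _ ?_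
  rw [RingHom.isStandardSmoothOfRelativeDimension_algebraMap]
  have h := Pool.Agent.Helper165.isStandardSmooth_of_bijective (R := k)
    (S := MvPolynomial (Fin 2) k) (ι := Fin 2) (fun i => MvPolynomial.X i) (by
      rw [show MvPolynomial.aeval (fun i => (MvPolynomial.X i : MvPolynomial (Fin 2) k)) =
        AlgHom.id k _ from MvPolynomial.aeval_X_left]
      exact Function.bijective_id)
  rwa [Nat.card_fin] at h

theorem smooth_XX : SmoothOfRelativeDimension 2 (Stmt.toSpecK (AA k p)) := by
  refine H159SM.SM4 (AA k p) (MvPolynomial (Fin 2) k) smooth_plane ?_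
  intro P hP hhom hirr
  by_contra hcon
  apply hirr
  have : P.IsPrime := hP
  apply irrelevant_le
  intro s t
  by_contra hst
  apply hcon
  refine ⟨mo k p (vtx p s t), mo_mem _, hst, ?_⟩
  obtain ⟨e, he⟩ := exists_equiv (theta k p s t).toRingHom (alpha k p (vtx p s t))
    (theta_injective s t) (alpha_injective _) (fun c => by
      refine (theta_range s t c).trans ?_
      exact alpha_range (vtx p s t) (degM_vtx p s t) (cone p s t) (vtx_H1 p s t) (vtx_H2 p s t) c)
  refine ⟨e, fun c => ?_⟩
  apply alpha_injective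
  rw [he, alpha_fromZero]
  exact (theta k p s t).commutes c

end Pool.Agent.H835R3
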