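import Pool.Agent.H835R3.Geom

/-!
The Hirzebruch surface `F_p = Proj S`: cover by the four charts, sections over the charts inside
the function field.
-/

set_option autoImplicit false

namespace Pool.Agent.H835R3

open AddMonoidAlgebra AlgebraicGeometry HomogeneousLocalization CategoryTheory TopologicalSpace

section gen

variable (p : ℕ)

/-- the semigroup is generated in degree one -/
lemma exists_split (u : Mon p) (hu : 0 < degM p u) :
    ∃ g u' : Mon p, degM p g = 1 ∧ u = g + u' := by
  obtain ⟨⟨i, j, d⟩, h1, h2⟩ := u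
  simp only at h1 h2
  obtain ⟨d, rfl⟩ : ∃ d', d = d' + 1 := ⟨d - 1, by
    have : 0 < d := hu
    omega⟩
  rcases Nat.eq_zero_or_pos j with rfl | hj
  · refine ⟨⟨(min i 1, 0, 1), ?_, ?_⟩, ⟨(i - min i 1, 0, d), ?_, ?_⟩, rfl, ?_⟩
    · simp
    · simp
    · simp
    · simp only [mul_zero, add_zero] at h2
      show i - min i 1 ≤ d + p * 0
      omega
    · apply Subtype.ext
      show (i, 0, d + 1) = (min i 1 + (i - min i 1), 0 + 0, 1 + d)
      rw [Prod.mk.injEq, Prod.mk.injEq]
      omega
  · obtain ⟨j, rfl⟩ : ∃ j', j = j' + 1 := ⟨j - 1, by omega⟩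
    refine ⟨⟨(min i (1 + p), 1, 1), ?_, ?_⟩, ⟨(i - min i (1 + p), j, d), ?_, ?_⟩, rfl, ?_⟩
    · simp
    · simp
    · simp only
      omega
    · simp only
      rw [mul_add, mul_one] at h2
      omega
    · apply Subtype.ext
      simp only [AddSubmonoid.coe_add, Prod.mk_add_mk, Prod.mk.injEq]
      omega

/-- points of degree one -/
lemma degree_one_cases (g : Mon p) (hg : degM p g = 1) :
    g = vtx p true true ∨ g = vtx p false true ∨
      ∃ (i : ℕ), i ≤ 1 + p ∧ g.1 = (i, 1, 1) := by
  obtain ⟨⟨i, j, d⟩, h1, h2⟩ := g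
  simp only at h1 h2
  have hd : d = 1 := hg
  subst hd
  have hj : j = 0 ∨ j = 1 := by omega
  rcases hj with rfl | rfl
  · simp only [mul_zero, add_zero] at h2
    have hi : i = 0 ∨ i = 1 := by omega
    rcases hi with rfl | rfl
    · left; apply Subtype.ext; simp [vtx]
    · right; left; apply Subtype.ext; simp [vtx]
  · right; right
    refine ⟨i, ?_, rfl⟩
    simpa using h2

end gen

variable (k : Type) [Field k] (p : ℕ)

/-- the Hirzebruch surface `F_p` -/
noncomputable abbrev XX : Scheme.{0} := Proj (AA k p)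

lemma mo_ne_zero (v : Mon p) : mo k p v ≠ 0 := by
  intro h
  have := congrArg (fun a : SS k p => a.coeff v) h
  simp at this

instance : IsIntegral (XX k p) :=
  H342U.D2c ⟨mo k p (vtx p true true), mo_mem _, mo_ne_zero k p _⟩

lemma mo_add (v v' : Mon p) : mo k p (v + v') = mo k p v * mo k p v' := by
  rw [single_mul_single, one_mul]

lemma mo_nsmul (n : ℕ) (v : Mon p) : mo k p (n • v) = mo k p v ^ n := by
  rw [single_pow, one_pow]

/-- a prime containing the four vertex monomials contains the irrelevant ideal -/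
lemma irrelevant_le (P : Ideal (SS k p)) [hP : P.IsPrime]
    (h : ∀ s t, mo k p (vtx p s t) ∈ P) : (HomogeneousIdeal.irrelevant (AA k p)).toIdeal ≤ P := by
  have h1 : ∀ g : Mon p, degM p g = 1 → mo k p g ∈ P := by
    intro g hg
    rcases degree_one_cases p g hg with rfl | rfl | ⟨i, hi, hgi⟩
    · exact h _ _
    · exact h _ _
    · have h2 : (p + 1) • g = (p + 1 - i) • vtx p true false + i • vtx p false false := by
        apply Subtype.ext
        rw [AddSubmonoidClass.coe_nsmul, AddSubmonoid.coe_add, AddSubmonoidClass.coe_nsmul,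
          AddSubmonoidClass.coe_nsmul, hgi]
        simp only [vtx, if_true, Bool.false_eq_true, if_false, Prod.smul_mk, smul_eq_mul,
          Prod.mk_add_mk, Prod.mk.injEq, mul_one, mul_zero, zero_add]
        refine ⟨by ring, by omega, by omega⟩
      apply hP.mem_of_pow_mem (p + 1)
      rw [← mo_nsmul, h2, mo_add, mo_nsmul, mo_nsmul]
      by_cases hi0 : i = 0
      · subst hi0
        rw [pow_zero, mul_one]
        exact Ideal.pow_mem_of_mem _ (h _ _) _ (by omega)
      · exact Ideal.mul_mem_left _ _ (Ideal.pow_mem_of_mem _ (h _ _) _ (by omega))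
  have h2 : ∀ u : Mon p, 0 < degM p u → mo k p u ∈ P := by
    intro u hu
    obtain ⟨g, u', hg, rfl⟩ := exists_split p u hu
    rw [mo_add]
    exact Ideal.mul_mem_right _ _ (h1 g hg)
  rw [HomogeneousIdeal.toIdeal_irrelevant_le]
  intro i hi x hx
  have h3 : x = x.coeff.sum (fun u a => (single u a : SS k p)) := (sum_coeff_single x).symm
  rw [h3]
  refine Ideal.sum_mem _ ?_
  intro u hu
  have h4 : (single u (x.coeff u) : SS k p) = single 0 (x.coeff u) * mo k p u := by
    rw [single_mul_single, zero_add, mul_one]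
  show (single u (x.coeff u) : SS k p) ∈ P
  rw [h4]
  refine Ideal.mul_mem_left _ _ (h2 u ?_)
  have : degM p u = i := hx u hu
  omega

/-- the open chart -/
noncomputable abbrev UU (v : Mon p) : (XX k p).Opens := Proj.basicOpen (AA k p) (mo k p v)

lemma exists_mem_UU (x : XX k p) : ∃ s t, x ∈ UU k p (vtx p s t) := by
  by_contra hcon
  push Not at hcon
  have hP : (x.asHomogeneousIdeal.toIdeal).IsPrime := x.isPrime
  refine x.not_irrelevant_le (irrelevant_le k p x.asHomogeneousIdeal.toIdeal ?_)
  intro s t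
  have h1 := hcon s t
  rw [Proj.mem_basicOpen] at h1
  simpa using h1

lemma generic_mem (v : Mon p) : genericPoint (XX k p) ∈ UU k p v := by
  have hnot : ¬ HomogeneousIdeal.irrelevant (AA k p) ≤ (⊥ : HomogeneousIdeal (AA k p)) := by
    intro hle
    apply mo_ne_zero k p (vtx p true true)
    have h1 : mo k p (vtx p true true) ∈ HomogeneousIdeal.irrelevant (AA k p) := by
      rw [HomogeneousIdeal.mem_irrelevant_iff]
      have : GradedRing.proj (AA k p) 0 (mo k p (vtx p true true)) =
        (DirectSum.decompose (AA k p) (mo k p (vtx p true true)) 0 : SS k p) := rfl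
      rw [this, DirectSum.decompose_of_mem_ne (AA k p) (mo_mem _) (by rw [degM_vtx]; norm_num)]
    have h2 := hle h1
    have h3 : mo k p (vtx p true true) ∈ (⊥ : HomogeneousIdeal (AA k p)).toIdeal := h2
    have h4 : (⊥ : HomogeneousIdeal (AA k p)).toIdeal = ⊥ := rfl
    rw [h4] at h3
    exact (Submodule.mem_bot _).1 h3
  let η : XX k p := (⟨⊥, by
    have : (⊥ : HomogeneousIdeal (AA k p)).toIdeal = ⊥ := rfl
    rw [this]
    exact Ideal.isPrime_bot, hnot⟩ : ProjectiveSpectrum (AA k p))
  refine genericPoint_mem _ η ?_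
  rw [Proj.mem_basicOpen]
  intro h
  have h3 : mo k p v ∈ (⊥ : HomogeneousIdeal (AA k p)).toIdeal := h
  have h4 : (⊥ : HomogeneousIdeal (AA k p)).toIdeal = ⊥ := rfl
  rw [h4] at h3
  exact mo_ne_zero k p v ((Submodule.mem_bot _).1 h3)

variable {k p}

lemma isAffineOpen_UU (v : Mon p) (hv : 0 < degM p v) : IsAffineOpen (UU k p v) :=
  Proj.isAffineOpen_basicOpen (AA k p) (mo k p v) (mo_mem v) hv

/-- sections over a chart -/
noncomputable def beta (v : Mon p) : Away (AA k p) (mo k p v) →+* Γ(XX k p, UU k p v) :=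
  (Proj.awayToSection (AA k p) (mo k p v)).hom

lemma beta_bijective (v : Mon p) (hv : 0 < degM p v) :
    Function.Bijective (beta (k := k) v) := by
  have h3 : IsIso (Proj.awayToSection (AA k p) (mo k p v)) := by
    have := (Proj.basicOpenIsoAway (AA k p) (mo k p v) (mo_mem v) hv).isIso_hom
    rwa [Proj.basicOpenIsoAway_hom] at this
  exact ConcreteCategory.bijective_of_isIso (Proj.awayToSection (AA k p) (mo k p v))

lemma UU_mono {v v' τ : Mon p} (h : τ = v + v') : UU k p τ ≤ UU k p v :=
  Proj.basicOpen_mono (AA k p) _ _ ⟨mo k p v', by rw [h, mo_add]⟩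

lemma beta_compat {v v' τ : Mon p} (h : τ = v + v') (z : Away (AA k p) (mo k p v)) :
    ∃ z' : Away (AA k p) (mo k p τ), alpha k p τ z' = alpha k p v z ∧
      res (UU_mono h) (beta v z) = beta τ z' := by
  subst h
  refine ⟨awayMap (AA k p) (mo_mem v') (mo_add k p v v') z,
    alpha_awayMap v v' (mo_mem v') (mo_add k p v v') z, ?_⟩
  have h1 := Proj.awayMap_awayToSection (AA k p) (f := mo k p v) (mo_mem v') (mo_add k p v v')
  have h2 := ConcreteCategory.congr_hom h1 z
  exact h2.symm

end Pool.Agent.H835R3
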